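import Mathlib

/-!
# Frog model and multi-walker cover time on finite graphs: definitions

Definitions used by `Pool.Agent.Results.MP_4d31e4_pr.NoConcentration`.
-/

open MeasureTheory ProbabilityTheory Set Filter
open scoped ENNReal NNReal Topology

namespace H411Frog

variable {V : Type*} [MeasurableSpace V]

/-- The law of one step of simple random walk on `G` from `v`: uniform on the neighbours of `v`
(by convention the walk stays put at an isolated vertex; connected graphs with at least two
vertices have none). -/
noncomputable def stepLaw (G : SimpleGraph V) (v : V) : Measure V :=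
  open Classical in
  if (G.neighborSet v).Nonempty then uniformOn (G.neighborSet v) else Measure.dirac v

/-- Driving sequences of a walk: at time `t` a walk that sits at `v` jumps to `ξ t v`. -/
abbrev Steps (V : Type*) := ℕ → V → V

/-- The law of a driving sequence: all `ξ t v` are independent, `ξ t v` is uniform on the
neighbours of `v`. -/
noncomputable def stepsLaw [Fintype V] (G : SimpleGraph V) : Measure (Steps V) :=
  Measure.infinitePi fun _ : ℕ => Measure.pi (stepLaw G)

/-- The path from `v` driven by `ξ`.  Under `stepsLaw G` this is simple random walk on `G`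
started at `v` (see `walk_law`). -/
def walk (ξ : Steps V) (v : V) : ℕ → V
  | 0 => v
  | t + 1 => ξ t (walk ξ v t)

/-- Sample points of the frog model: the number `ω.1 v` of sleeping particles at each vertex `v`,
and the driving sequences of all particles.  The `i`-th sleeping particle at `v` (`i < ω.1 v`)
has driving sequence `ω.2 (some (v, i))`; the extra particle has `ω.2 none`. -/
abbrev FrogSpace (V : Type*) := (V → ℕ) × (Option (V × ℕ) → Steps V)

/-- The law of the frog model with density `lam`: independent `Pois(lam)` numbers, and
independent driving sequences, independent of the numbers. -/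
noncomputable def frogLaw [Fintype V] (G : SimpleGraph V) (lam : ℝ≥0) : Measure (FrogSpace V) :=
  (Measure.pi fun _ : V => poissonMeasure lam).prod
    (Measure.infinitePi fun _ : Option (V × ℕ) => stepsLaw G)

/-- The set of vertices at which some active particle sits at time `s`, when the lifetime
is `τ`.  The extra particle started at `o` contributes the first `τ` steps of its path.  If `u` is
visited for the first time at time `s'`, each sleeping particle at `u` becomes active at
time `s'` and sits at the `(s - s')`-th vertex of its path at time `s`, for `s - s' ≤ τ`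
(for `s = s'` this vertex is `u` itself, which is visited at time `s'` already). -/
def visitedAt (o : V) (τ : ℕ) (ω : FrogSpace V) : ℕ → Set V
  | s => {v | (s ≤ τ ∧ walk (ω.2 none) o s = v) ∨
      ∃ s', ∃ _ : s' < s, ∃ u,
        (u ∈ visitedAt o τ ω s' ∧ ∀ s'', ∀ _ : s'' < s', u ∉ visitedAt o τ ω s'') ∧
        ∃ i < ω.1 u, s ≤ s' + τ ∧ walk (ω.2 (some (u, i))) u (s - s') = v}

/-- `R_τ`: the set of vertices visited by an active particle before the process dies out. -/
def reached (o : V) (τ : ℕ) (ω : FrogSpace V) : Set V := ⋃ s, visitedAt o τ ω s

/-- The susceptibility `S(G) = min {τ : R_τ = V}` (`∞` if there is no such `τ`, which has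
probability zero on a finite connected graph). -/
noncomputable def suscept (o : V) (ω : FrogSpace V) : ℝ≥0∞ :=
  ⨅ (τ : ℕ) (_ : reached o τ ω = univ), (τ : ℝ≥0∞)

/-- The mean `E_lam[S(G)]`. -/
noncomputable def meanSuscept [Fintype V] (G : SimpleGraph V) (o : V) (lam : ℝ≥0) : ℝ≥0∞ :=
  ∫⁻ ω, suscept o ω ∂frogLaw G lam

/-- The law of `m` independent simple random walks with independent uniform starting points:
the `j`-th walk starts at `(ω j).1` and is driven by `(ω j).2`. -/
noncomputable def walkersLaw [Fintype V] (G : SimpleGraph V) (m : ℕ) :
    Measure (Fin m → V × Steps V) :=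
  Measure.pi fun _ => (uniformOn (univ : Set V)).prod (stepsLaw G)

/-- The multi-walker cover time `D(G, m)`: the first time `t` such that every vertex has been
visited by at least one of the `m` walks by time `t` (`∞` if there is no such time). -/
noncomputable def coverTime {m : ℕ} (ω : Fin m → V × Steps V) : ℝ≥0∞ :=
  ⨅ (t : ℕ) (_ : ∀ v, ∃ j, ∃ s ≤ t, walk (ω j).2 (ω j).1 s = v), (t : ℝ≥0∞)

/-- The mean `E[D(G, m)]`. -/
noncomputable def meanCover [Fintype V] (G : SimpleGraph V) (m : ℕ) : ℝ≥0∞ :=
  ∫⁻ ω, coverTime ω ∂walkersLaw G m

/-- `G` is vertex-transitive. -/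
def VertexTransitive (G : SimpleGraph V) : Prop :=
  ∀ u v : V, ∃ φ : G ≃g G, φ v = u

end H411Frog
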