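import Mathlib
import Pool.Agent.H411R3.FrogModel

open MeasureTheory ProbabilityTheory Set Filter
open scoped ENNReal NNReal Topology

namespace H411Frog

variable {V : Type*} [Fintype V] [MeasurableSpace V] [MeasurableSingletonClass V]

instance (G : SimpleGraph V) (v : V) : IsProbabilityMeasure (stepLaw G v) := by
  unfold stepLaw
  split_ifs with h
  · exact isProbabilityMeasure_uniformOn (Set.toFinite _) h
  · infer_instance

instance (G : SimpleGraph V) : IsProbabilityMeasure (stepsLaw G) := by
  unfold stepsLaw; infer_instance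

instance (G : SimpleGraph V) (lam : ℝ≥0) : IsProbabilityMeasure (frogLaw G lam) := by
  unfold frogLaw; infer_instance

instance instDiscFun : DiscreteMeasurableSpace (V → V) := by
  infer_instance

lemma measurable_walk (v : V) (t : ℕ) : Measurable fun ξ : Steps V => walk ξ v t := by
  induction t with
  | zero => exact measurable_const
  | succ t ih =>
    have h1 : Measurable fun ξ : Steps V => (ξ t, walk ξ v t) :=
      (measurable_pi_apply t).prodMk ih
    have h2 : Measurable fun p : (V → V) × V => p.1 p.2 := Measurable.of_discrete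
    exact h2.comp h1

/-- The one-step law of the driving map at `u`. -/
lemma stepsLaw_step (G : SimpleGraph V) (t : ℕ) (u : V) (A : Set V) :
    stepsLaw G {ξ | ξ t u ∈ A} = stepLaw G u A := by
  have hA : MeasurableSet A := A.toFinite.measurableSet
  have h1 : {ξ : Steps V | ξ t u ∈ A} = Set.pi ((({t} : Finset ℕ)) : Set ℕ)
      (fun _ => {f : V → V | f u ∈ A}) := by
    ext ξ; simp
  rw [h1, stepsLaw, Measure.infinitePi_pi]
  · simp only [Finset.prod_singleton]
    have h2 : {f : V → V | f u ∈ A} = (Function.eval u) ⁻¹' A := rfl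
    rw [h2, ← Measure.map_apply (measurable_pi_apply u) hA]
    have := (measurePreserving_eval (stepLaw G) u).map_eq
    rw [this]
  · intro i _
    exact MeasurableSet.of_discrete

lemma stepLaw_singleton_ne_zero (G : SimpleGraph V) {u v : V} (h : G.Adj u v) :
    stepLaw G u {v} ≠ 0 := by
  unfold stepLaw
  have hne : (G.neighborSet u).Nonempty := ⟨v, h⟩
  rw [if_pos hne]
  intro h0
  rw [uniformOn_eq_zero_iff (Set.toFinite _)] at h0
  have : v ∈ G.neighborSet u ∩ {v} := ⟨h, rfl⟩
  rw [h0] at this
  exact this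

lemma stepLaw_regular (G : SimpleGraph V) {u : V} {d : ℕ} (hd : (G.neighborSet u).ncard = d)
    (hd0 : d ≠ 0) (v : V) [Decidable (G.Adj u v)] :
    stepLaw G u {v} = if G.Adj u v then (d : ℝ≥0∞)⁻¹ else 0 := by
  unfold stepLaw
  have hne : (G.neighborSet u).Nonempty := by
    apply Set.nonempty_of_ncard_ne_zero; omega
  rw [if_pos hne]
  have hcount : Measure.count (G.neighborSet u) = (d : ℝ≥0∞) := by
    rw [Measure.count_apply_finite _ (Set.toFinite _), ← hd, Set.ncard_eq_toFinset_card]
  split_ifs with h
  · rw [uniformOn, cond_apply (Set.toFinite _).measurableSet, hcount]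
    have : G.neighborSet u ∩ {v} = {v} := by
      ext x; simp only [mem_inter_iff, mem_singleton_iff]
      constructor
      · exact fun h => h.2
      · rintro rfl; exact ⟨h, rfl⟩
    rw [this, Measure.count_singleton, mul_one]
  · rw [uniformOn_eq_zero_iff (Set.toFinite _)]
    ext x; simp only [mem_inter_iff, mem_singleton_iff, mem_empty_iff_false, iff_false]
    rintro ⟨h1, rfl⟩; exact h h1

/-- Under `stepsLaw G`, `walk · v` is simple random walk on `G` from `v`: the probability that
the first `t` steps follow a given path is the product of the one-step probabilities. -/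
lemma walk_law (G : SimpleGraph V) (t : ℕ) (p : ℕ → V) :
    stepsLaw G {ξ | ∀ s ≤ t, walk ξ (p 0) s = p s} =
      ∏ s ∈ Finset.range t, stepLaw G (p s) {p (s + 1)} := by
  have h1 : {ξ : Steps V | ∀ s ≤ t, walk ξ (p 0) s = p s} =
      Set.pi ((Finset.range t : Finset ℕ) : Set ℕ) (fun s => {f : V → V | f (p s) = p (s + 1)}) := by
    ext ξ
    simp only [mem_ofPred_eq, Finset.coe_range, Set.mem_pi, mem_Iio]
    constructor
    · intro h s hs
      have h2 := h s hs.le
      have h3 := h (s + 1) hs
      rw [walk, h2] at h3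
      exact h3
    · intro h s
      induction s with
      | zero => intro _; rfl
      | succ s ih =>
        intro hs
        rw [walk, ih (by omega)]
        exact h s (by omega)
  rw [h1, stepsLaw, Measure.infinitePi_pi]
  · apply Finset.prod_congr rfl
    intro s _
    have h2 : {f : V → V | f (p s) = p (s + 1)} =
        (Function.eval (p s)) ⁻¹' ({p (s+1)} : Set V) := rfl
    rw [h2, ← Measure.map_apply (measurable_pi_apply _) (measurableSet_singleton _)]
    rw [(measurePreserving_eval (stepLaw G) (p s)).map_eq]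
  · intro i _
    exact MeasurableSet.of_discrete

/-! ### The reached set as the least closed set -/

/-- `W` is closed under the frog dynamics with lifetime `τ`. -/
def Closed (o : V) (τ : ℕ) (ω : FrogSpace V) (W : Set V) : Prop :=
  (∀ t ≤ τ, walk (ω.2 none) o t ∈ W) ∧
    ∀ u ∈ W, ∀ i < ω.1 u, ∀ t ≤ τ, walk (ω.2 (some (u, i))) u t ∈ W

omit [Fintype V] [MeasurableSpace V] [MeasurableSingletonClass V] in
lemma mem_visitedAt {o : V} {τ : ℕ} {ω : FrogSpace V} {s : ℕ} {v : V} :
    v ∈ visitedAt o τ ω s ↔ ((s ≤ τ ∧ walk (ω.2 none) o s = v) ∨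
      ∃ s', ∃ _ : s' < s, ∃ u,
        (u ∈ visitedAt o τ ω s' ∧ ∀ s'', ∀ _ : s'' < s', u ∉ visitedAt o τ ω s'') ∧
        ∃ i < ω.1 u, s ≤ s' + τ ∧ walk (ω.2 (some (u, i))) u (s - s') = v) := by
  rw [visitedAt]; rfl

omit [Fintype V] [MeasurableSpace V] [MeasurableSingletonClass V] in
lemma closed_reached (o : V) (τ : ℕ) (ω : FrogSpace V) : Closed o τ ω (reached o τ ω) := by
  constructor
  · intro t ht
    refine mem_iUnion.2 ⟨t, ?_⟩
    rw [mem_visitedAt]
    exact Or.inl ⟨ht, rfl⟩
  · intro u hu i hi t ht
    classical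
    have hex : ∃ s, u ∈ visitedAt o τ ω s := mem_iUnion.1 hu
    let s' := Nat.find hex
    have hs' : u ∈ visitedAt o τ ω s' := Nat.find_spec hex
    rcases Nat.eq_zero_or_pos t with rfl | htpos
    · exact hu
    · refine mem_iUnion.2 ⟨s' + t, ?_⟩
      rw [mem_visitedAt]
      refine Or.inr ⟨s', by omega, u, ⟨hs', fun s'' hs'' => Nat.find_min hex hs''⟩, i, hi,
        by omega, ?_⟩
      congr 1
      omega

omit [Fintype V] [MeasurableSpace V] [MeasurableSingletonClass V] in
lemma reached_subset {o : V} {τ : ℕ} {ω : FrogSpace V} {W : Set V} (hW : Closed o τ ω W) :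
    reached o τ ω ⊆ W := by
  have key : ∀ s, ∀ v ∈ visitedAt o τ ω s, v ∈ W := by
    intro s
    induction s using Nat.strong_induction_on with
    | _ s ih =>
      intro v hv
      rw [mem_visitedAt] at hv
      rcases hv with ⟨hs, rfl⟩ | ⟨s', hs', u, ⟨hu, _⟩, i, hi, hle, rfl⟩
      · exact hW.1 s hs
      · exact hW.2 u (ih s' hs' u hu) i hi _ (by omega)
  intro v hv
  obtain ⟨s, hs⟩ := mem_iUnion.1 hv
  exact key s v hs

omit [Fintype V] [MeasurableSpace V] [MeasurableSingletonClass V] in
lemma mem_reached_iff {o : V} {τ : ℕ} {ω : FrogSpace V} {v : V} :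
    v ∈ reached o τ ω ↔ ∀ W : Set V, Closed o τ ω W → v ∈ W :=
  ⟨fun h _ hW => reached_subset hW h, fun h => h _ (closed_reached o τ ω)⟩

lemma measurableSet_closed (o : V) (τ : ℕ) (W : Set V) :
    MeasurableSet {ω : FrogSpace V | Closed o τ ω W} := by
  have hW : MeasurableSet W := W.toFinite.measurableSet
  have e : {ω : FrogSpace V | Closed o τ ω W} =
      (⋂ (t : ℕ) (_ : t ≤ τ), {ω : FrogSpace V | walk (ω.2 none) o t ∈ W}) ∩
      ⋂ (u : V) (_ : u ∈ W) (i : ℕ) , ({ω : FrogSpace V | i < ω.1 u}ᶜ ∪
        ⋂ (t : ℕ) (_ : t ≤ τ), {ω : FrogSpace V | walk (ω.2 (some (u, i))) u t ∈ W}) := by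
    ext ω
    simp only [Closed, mem_ofPred_eq, mem_inter_iff, mem_iInter, mem_union, mem_compl_iff, not_lt]
    constructor
    · rintro ⟨h1, h2⟩
      refine ⟨h1, fun u hu i => ?_⟩
      rcases lt_or_ge i (ω.1 u) with h | h
      · exact Or.inr (h2 u hu i h)
      · exact Or.inl h
    · rintro ⟨h1, h2⟩
      refine ⟨h1, fun u hu i hi => ?_⟩
      rcases h2 u hu i with h | h
      · omega
      · exact h
  rw [e]
  have hm : ∀ (a : Option (V × ℕ)) (u : V) (t : ℕ),
      MeasurableSet {ω : FrogSpace V | walk (ω.2 a) u t ∈ W} := by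
    intro a u t
    have : Measurable fun ω : FrogSpace V => walk (ω.2 a) u t :=
      (measurable_walk u t).comp ((measurable_pi_apply a).comp measurable_snd)
    exact this hW
  have hN : ∀ (u : V) (i : ℕ), MeasurableSet {ω : FrogSpace V | i < ω.1 u} := by
    intro u i
    have : Measurable fun ω : FrogSpace V => ω.1 u := (measurable_pi_apply u).comp measurable_fst
    exact this (measurableSet_Ioi (a := i))
  refine MeasurableSet.inter ?_ ?_
  · exact MeasurableSet.iInter fun t => MeasurableSet.iInter fun _ => hm none o t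
  · refine MeasurableSet.iInter fun u => MeasurableSet.iInter fun _ => MeasurableSet.iInter fun i => ?_
    exact (hN u i).compl.union (MeasurableSet.iInter fun t => MeasurableSet.iInter fun _ => hm _ u t)

lemma measurableSet_reached (o : V) (τ : ℕ) :
    MeasurableSet {ω : FrogSpace V | reached o τ ω = univ} := by
  have e : {ω : FrogSpace V | reached o τ ω = univ} =
      ⋂ (v : V) (W : Set V), ({ω : FrogSpace V | Closed o τ ω W}ᶜ ∪ {_ω | v ∈ W}) := by
    ext ω
    simp only [mem_ofPred_eq, mem_iInter, mem_union, mem_compl_iff, eq_univ_iff_forall,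
      mem_reached_iff]
    refine forall_congr' fun v => forall_congr' fun W => ?_
    tauto
  rw [e]
  refine MeasurableSet.iInter fun v => MeasurableSet.iInter fun W => ?_
  exact (measurableSet_closed o τ W).compl.union (MeasurableSet.const _)

lemma measurable_suscept (o : V) : Measurable (suscept o : FrogSpace V → ℝ≥0∞) := by
  classical
  unfold suscept
  refine Measurable.iInf fun τ => ?_
  have e : (fun ω : FrogSpace V => ⨅ (_ : reached o τ ω = univ), (τ : ℝ≥0∞)) =
      fun ω => if reached o τ ω = univ then (τ : ℝ≥0∞) else ⊤ := by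
    ext ω
    split_ifs with h <;> simp [h]
  rw [e]
  exact Measurable.ite (measurableSet_reached o τ) measurable_const measurable_const

/-- The event `S ≤ k`. -/
def frogEvent (o : V) (k : ℕ) : Set (FrogSpace V) := {ω | ∃ τ ≤ k, reached o τ ω = univ}

lemma measurableSet_frogEvent (o : V) (k : ℕ) : MeasurableSet (frogEvent o k : Set (FrogSpace V)) := by
  have e : (frogEvent o k : Set (FrogSpace V)) =
      ⋃ (τ : ℕ) (_ : τ ≤ k), {ω : FrogSpace V | reached o τ ω = univ} := by
    ext ω; simp [frogEvent]
  rw [e]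
  exact MeasurableSet.iUnion fun τ => MeasurableSet.iUnion fun _ => measurableSet_reached o τ

omit [Fintype V] [MeasurableSpace V] [MeasurableSingletonClass V] in
lemma suscept_le_of_mem {o : V} {k : ℕ} {ω : FrogSpace V} (h : ω ∈ frogEvent o k) :
    suscept o ω ≤ k := by
  obtain ⟨τ, hτ, hr⟩ := h
  unfold suscept
  exact (iInf₂_le τ hr).trans (by exact_mod_cast hτ)

omit [Fintype V] [MeasurableSpace V] [MeasurableSingletonClass V] in
lemma le_suscept_of_notMem {o : V} {k : ℕ} {ω : FrogSpace V} (h : ω ∉ frogEvent o k) :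
    (k : ℝ≥0∞) + 1 ≤ suscept o ω := by
  unfold suscept
  refine le_iInf₂ fun τ hτ => ?_
  have : k + 1 ≤ τ := by
    by_contra hc
    exact h ⟨τ, by omega, hτ⟩
  exact_mod_cast this

end H411Frog
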