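import Mathlib
import Pool.Agent.H411R3.FrogModel

open MeasureTheory ProbabilityTheory Set Filter
open scoped ENNReal NNReal Topology

namespace H411Frog

/-- If `S ≤ k` on `E` and `S ≥ k + 1` off `E`, with both events of probability at least `b`, then
`S / a` is at distance at least `1 / (2 k + 1)` from `1` with probability at least `b`, for every
positive normalization `a`. -/
lemma dev_of_split {Ω : Type*} [MeasurableSpace Ω] (μ : Measure Ω) [IsProbabilityMeasure μ]
    (S : Ω → ℝ≥0∞) (hS : Measurable S) (hfin : ∫⁻ ω, S ω ∂μ ≠ ∞) (k : ℕ) (E : Set Ω)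
    (hE : MeasurableSet E) (h1 : ∀ ω ∈ E, S ω ≤ k) (h2 : ∀ ω ∉ E, (k : ℝ≥0∞) + 1 ≤ S ω)
    (b : ℝ) (hb1 : b ≤ μ.real E) (hb2 : b ≤ 1 - μ.real E) (a : ℝ) (ha : 0 < a) :
    b ≤ μ.real {ω | 1 / (2 * k + 1 : ℝ) ≤ |(S ω).toReal / a - 1|} := by
  have hk : (0 : ℝ) < 2 * k + 1 := by positivity
  rcases le_or_gt ((k : ℝ) + 1 / 2) a with h | h
  · refine hb1.trans (measureReal_mono ?_ (measure_ne_top _ _))
    intro ω hω
    have h3 : (S ω).toReal ≤ k := by
      have := ENNReal.toReal_mono (ENNReal.natCast_ne_top k) (h1 ω hω)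
      simpa using this
    have h4 : (S ω).toReal / a ≤ 1 - 1 / (2 * k + 1) := by
      rw [div_le_iff₀ ha]
      have h5 : (1 - 1 / (2 * k + 1) : ℝ) * ((k : ℝ) + 1 / 2) = k := by field_simp; ring
      have h6 : (0 : ℝ) ≤ 1 - 1 / (2 * k + 1) := by
        rw [sub_nonneg, div_le_one hk]; linarith [(Nat.cast_nonneg k : (0:ℝ) ≤ k)]
      nlinarith [mul_le_mul_of_nonneg_left h h6]
    simp only [mem_ofPred_eq]
    rw [abs_of_nonpos (by have : (0:ℝ) < 1 / (2 * k + 1) := by positivity
                          linarith)]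
    linarith
  · have h3 : ∀ᵐ ω ∂μ, S ω < ∞ := ae_lt_top hS hfin
    have h4 : μ Eᶜ ≤ μ {ω | 1 / (2 * k + 1 : ℝ) ≤ |(S ω).toReal / a - 1|} := by
      refine measure_mono_ae ?_
      filter_upwards [h3] with ω hω hE'
      have h5 : (k : ℝ) + 1 ≤ (S ω).toReal := by
        have := ENNReal.toReal_mono hω.ne (h2 ω hE')
        rw [ENNReal.toReal_add (ENNReal.natCast_ne_top k) ENNReal.one_ne_top] at this
        simpa using this
      have h6 : 1 + 1 / (2 * k + 1) ≤ (S ω).toReal / a := by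
        rw [le_div_iff₀ ha]
        have h7 : (1 + 1 / (2 * k + 1) : ℝ) * ((k : ℝ) + 1 / 2) = k + 1 := by field_simp; ring
        have h8 : (0 : ℝ) ≤ 1 + 1 / (2 * k + 1) := by positivity
        nlinarith [mul_le_mul_of_nonneg_left h.le h8]
      show 1 / (2 * k + 1 : ℝ) ≤ |(S ω).toReal / a - 1|
      refine le_trans ?_ (le_abs_self _)
      linarith
    have h5 : μ.real Eᶜ ≤ μ.real {ω | 1 / (2 * k + 1 : ℝ) ≤ |(S ω).toReal / a - 1|} :=
      ENNReal.toReal_mono (measure_ne_top _ _) h4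
    rw [probReal_compl_eq_one_sub hE] at h5
    exact hb2.trans h5

/-- If `S ≥ 1` off `E` and `E` does not have full measure then the mean of `S` is not zero. -/
lemma mean_ne_zero {Ω : Type*} [MeasurableSpace Ω] (μ : Measure Ω) [IsProbabilityMeasure μ]
    (S : Ω → ℝ≥0∞) (hS : Measurable S) (E : Set Ω)
    (hE : MeasurableSet E) (h2 : ∀ ω ∉ E, 1 ≤ S ω) (hb : μ.real E < 1) :
    ∫⁻ ω, S ω ∂μ ≠ 0 := by
  intro h0
  rw [lintegral_eq_zero_iff hS] at h0
  have h3 : μ Eᶜ = 0 := by
    refine measure_mono_null ?_ (ae_iff.1 h0)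
    intro ω hω
    have := h2 ω hω
    simp only [mem_ofPred_eq, Pi.zero_apply]
    intro h
    rw [h] at this
    simp at this
  have h4 : μ.real Eᶜ = 0 := by rw [measureReal_def, h3]; simp
  rw [probReal_compl_eq_one_sub hE] at h4
  linarith

lemma connected_neighbor_ne_zero {V : Type*} [Fintype V] {G : SimpleGraph V} (hG : G.Connected)
    (hV : 2 ≤ Fintype.card V) {d : ℕ} (hd : ∀ v, (G.neighborSet v).ncard = d) : d ≠ 0 := by
  rintro rfl
  obtain ⟨u, v, huv⟩ := Fintype.one_lt_card_iff.1 hV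
  obtain ⟨p⟩ := hG.preconnected u v
  cases p with
  | nil => exact huv rfl
  | @cons _ w _ hadj q =>
    have h1 := hd u
    rw [Set.ncard_eq_zero (Set.toFinite _)] at h1
    have : w ∈ G.neighborSet u := hadj
    rw [h1] at this
    exact this

lemma regular_of_transitive {V : Type*} {G : SimpleGraph V} (hG : VertexTransitive G)
    (v0 : V) (v : V) : (G.neighborSet v).ncard = (G.neighborSet v0).ncard := by
  obtain ⟨φ, hφ⟩ := hG v v0
  have : G.neighborSet v = φ '' (G.neighborSet v0) := by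
    ext x
    simp only [SimpleGraph.mem_neighborSet, mem_image]
    constructor
    · intro h
      refine ⟨φ.symm x, ?_, by simp⟩
      rw [← φ.map_adj_iff, hφ]
      simpa using h
    · rintro ⟨y, hy, rfl⟩
      rw [← hφ, φ.map_adj_iff]
      exact hy
  rw [this, Set.ncard_image_of_injective _ φ.injective]

lemma transitive_top (n : ℕ) : VertexTransitive (⊤ : SimpleGraph (Fin n)) := by
  classical
  intro u v
  refine ⟨⟨Equiv.swap v u, ?_⟩, ?_⟩
  · intro a b
    simp
  · simp

lemma connected_top (n : ℕ) : (⊤ : SimpleGraph (Fin (n + 1))).Connected :=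
  SimpleGraph.connected_top

end H411Frog
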