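import Mathlib
import Pool.Agent.H411R3.FrogBasic

open MeasureTheory ProbabilityTheory Set Filter
open scoped ENNReal NNReal Topology

namespace H411Frog

variable {V : Type*} [Fintype V] [MeasurableSpace V] [MeasurableSingletonClass V]

/-- Events that depend on disjoint ranges of driving maps are independent. -/
lemma stepsLaw_inter (G : SimpleGraph V) {n m : ℕ} {A B : Set (Steps V)}
    (hA : ∀ ξ ξ' : Steps V, (∀ t < n, ξ t = ξ' t) → (ξ ∈ A ↔ ξ' ∈ A))
    (hB : ∀ ξ ξ' : Steps V, (∀ t, n ≤ t → t < m → ξ t = ξ' t) → (ξ ∈ B ↔ ξ' ∈ B)) :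
    stepsLaw G (A ∩ B) = stepsLaw G A * stepsLaw G B := by
  classical
  have h0 : iIndepFun (fun (i : ℕ) (ξ : Steps V) => ξ i) (stepsLaw G) :=
    iIndepFun_infinitePi (X := fun _ ω => ω) (fun _ => measurable_id)
  have hdisj : Disjoint (Finset.range n) (Finset.Ico n m) := by
    rw [Finset.disjoint_left]
    intro a ha hb
    simp only [Finset.mem_range, Finset.mem_Ico] at ha hb
    omega
  have hind := h0.indepFun_finset (Finset.range n) (Finset.Ico n m) hdisj
    (fun i => measurable_pi_apply i)
  let A' : Set ((i : Finset.range n) → (V → V)) :=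
    {y | (fun t => if h : t ∈ Finset.range n then y ⟨t, h⟩ else id) ∈ A}
  let B' : Set ((i : Finset.Ico n m) → (V → V)) :=
    {y | (fun t => if h : t ∈ Finset.Ico n m then y ⟨t, h⟩ else id) ∈ B}
  have hA' : A = (fun (ξ : Steps V) (i : Finset.range n) => ξ i) ⁻¹' A' := by
    ext ξ
    simp only [A', mem_preimage, mem_ofPred_eq]
    refine hA _ _ fun t ht => ?_
    simp [ht]
  have hB' : B = (fun (ξ : Steps V) (i : Finset.Ico n m) => ξ i) ⁻¹' B' := by
    ext ξ
    simp only [B', mem_preimage, mem_ofPred_eq]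
    refine hB _ _ fun t ht1 ht2 => ?_
    simp [ht1, ht2]
  have h1 := hind.measure_inter_preimage_eq_mul A' B' (MeasurableSet.of_discrete)
    (MeasurableSet.of_discrete)
  rw [hA', hB']
  exact h1

omit [Fintype V] [MeasurableSpace V] [MeasurableSingletonClass V] in
lemma exists_closer {G : SimpleGraph V} (hG : G.Connected) (w : V) :
    ∃ f : V → V, ∀ v, v ≠ w → G.Adj v (f v) ∧ G.dist (f v) w < G.dist v w := by
  have h : ∀ v, ∃ u, v ≠ w → G.Adj v u ∧ G.dist u w < G.dist v w := by
    intro v
    by_cases hv : v = w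
    · exact ⟨v, fun h => absurd hv h⟩
    · obtain ⟨p, hp⟩ := (hG.preconnected v w).exists_walk_length_eq_dist
      cases p with
      | nil => exact absurd rfl hv
      | @cons _ u _ hadj q =>
        refine ⟨u, fun _ => ⟨hadj, ?_⟩⟩
        have h1 := G.dist_le q
        rw [SimpleGraph.Walk.length_cons] at hp
        omega
  choose f hf using h
  exact ⟨f, hf⟩

/-- In the `j`-th block of length `L` not all driving maps lie in `C`, for all `j < J`. -/
def badBlocks (C : Set (V → V)) (L J : ℕ) : Set (Steps V) :=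
  {ξ | ∀ j < J, ∃ i < L, ξ (j * L + i) ∉ C}

lemma badBlocks_measure (G : SimpleGraph V) (C : Set (V → V)) (L J : ℕ) :
    stepsLaw G (badBlocks C L J) = (1 - (Measure.pi (stepLaw G) C) ^ L) ^ J := by
  induction J with
  | zero =>
    have : badBlocks C L 0 = univ := by ext ξ; simp [badBlocks]
    rw [this, measure_univ, pow_zero]
  | succ J ih =>
    have e : badBlocks C L (J + 1) = badBlocks C L J ∩ {ξ | ∀ i < L, ξ (J * L + i) ∈ C}ᶜ := by
      ext ξ
      simp only [badBlocks, mem_ofPred_eq, mem_inter_iff, mem_compl_iff, not_forall]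
      constructor
      · intro h
        refine ⟨fun j hj => h j (by omega), ?_⟩
        obtain ⟨i, hi, hc⟩ := h J (by omega)
        exact ⟨i, hi, hc⟩
      · rintro ⟨h1, i, hi, hc⟩ j hj
        rcases Nat.lt_succ_iff_lt_or_eq.1 hj with h | rfl
        · exact h1 j h
        · exact ⟨i, hi, hc⟩
    rw [e, stepsLaw_inter G (n := J * L) (m := J * L + L), ih, pow_succ]
    · congr 1
      have hm : MeasurableSet {ξ : Steps V | ∀ i < L, ξ (J * L + i) ∈ C} := by
        have : {ξ : Steps V | ∀ i < L, ξ (J * L + i) ∈ C} =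
            ⋂ (i : ℕ) (_ : i < L), {ξ : Steps V | ξ (J * L + i) ∈ C} := by
          ext ξ; simp
        rw [this]
        refine MeasurableSet.iInter fun i => MeasurableSet.iInter fun _ => ?_
        exact (measurable_pi_apply (J * L + i)) (MeasurableSet.of_discrete (s := C))
      rw [prob_compl_eq_one_sub hm]
      congr 1
      have e2 : {ξ : Steps V | ∀ i < L, ξ (J * L + i) ∈ C} =
          Set.pi (((Finset.Ico (J * L) (J * L + L)) : Finset ℕ) : Set ℕ) (fun _ => C) := by
        ext ξ
        simp only [mem_ofPred_eq, Finset.coe_Ico, Set.mem_pi, mem_Ico]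
        constructor
        · rintro h t ⟨h1, h2⟩
          have := h (t - J * L) (by omega)
          rwa [show J * L + (t - J * L) = t by omega] at this
        · intro h i hi
          exact h _ ⟨by omega, by omega⟩
      rw [e2, stepsLaw, Measure.infinitePi_pi]
      · rw [Finset.prod_const, Nat.card_Ico]
        congr 1
        omega
      · intro i _
        exact MeasurableSet.of_discrete
    · intro ξ ξ' h
      simp only [badBlocks, mem_ofPred_eq]
      refine forall_congr' fun j => forall_congr' fun hj => exists_congr fun i => and_congr_right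
        fun hi => ?_
      rw [h]
      calc j * L + i < j * L + L := by omega
        _ = (j + 1) * L := by ring
        _ ≤ J * L := Nat.mul_le_mul_right L hj
    · intro ξ ξ' h
      simp only [mem_compl_iff, mem_ofPred_eq]
      refine not_congr (forall_congr' fun i => forall_congr' fun hi => ?_)
      rw [h _ (by omega) (by omega)]

lemma measurableSet_badBlocks (C : Set (V → V)) (L J : ℕ) :
    MeasurableSet (badBlocks C L J) := by
  have : badBlocks C L J = ⋂ (j : ℕ) (_ : j < J), ⋃ (i : ℕ) (_ : i < L),
      {ξ : Steps V | ξ (j * L + i) ∈ Cᶜ} := by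
    ext ξ; simp [badBlocks]
  rw [this]
  refine MeasurableSet.iInter fun j => MeasurableSet.iInter fun _ => MeasurableSet.iUnion fun i =>
    MeasurableSet.iUnion fun _ => ?_
  exact (measurable_pi_apply _) (MeasurableSet.of_discrete (s := Cᶜ))

/-- For each target `w`: an integrable bound for the time by which the walks from all starting
points have visited `w`. -/
lemma exists_hit_bound (G : SimpleGraph V) (hG : G.Connected) (w : V) :
    ∃ U : Steps V → ℝ≥0∞, Measurable U ∧ ∫⁻ ξ, U ξ ∂stepsLaw G ≠ ∞ ∧
      ∀ ξ, U ξ ≠ ∞ → ∃ t : ℕ, (t : ℝ≥0∞) ≤ U ξ ∧ ∀ v, ∃ s ≤ t, walk ξ v s = w := by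
  classical
  obtain ⟨f, hf⟩ := exists_closer hG w
  set L : ℕ := Finset.univ.sup (fun v => G.dist v w) + 1 with hL
  have hLd : ∀ v, G.dist v w ≤ L := fun v =>
    (Finset.le_sup (f := fun v => G.dist v w) (Finset.mem_univ v)).trans (Nat.le_succ _)
  set C : Set (V → V) := {g | ∀ v, v ≠ w → g v = f v} with hC
  have hCpos : Measure.pi (stepLaw G) C ≠ 0 := by
    have e : C = Set.pi univ (fun v => if v = w then univ else {f v}) := by
      ext g
      simp only [hC, mem_ofPred_eq, Set.mem_pi, mem_univ, true_implies]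
      refine forall_congr' fun v => ?_
      split_ifs with h <;> simp [h]
    rw [e, Measure.pi_pi, Finset.prod_ne_zero_iff]
    intro v _
    split_ifs with h
    · rw [measure_univ]; exact one_ne_zero
    · exact stepLaw_singleton_ne_zero G (hf v h).1
  set r : ℝ≥0∞ := 1 - (Measure.pi (stepLaw G) C) ^ L with hr
  have hr1 : r < 1 := by
    rw [hr]
    exact ENNReal.sub_lt_self ENNReal.one_ne_top one_ne_zero (pow_ne_zero _ hCpos)
  refine ⟨fun ξ => ∑' J : ℕ, (L : ℝ≥0∞) * (badBlocks C L J).indicator 1 ξ, ?_, ?_, ?_⟩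
  · refine Measurable.tsum fun J => ?_
    exact (measurable_one.indicator (measurableSet_badBlocks C L J)).const_mul _
  · rw [lintegral_tsum]
    · have h1 : ∀ J : ℕ, ∫⁻ ξ, (L : ℝ≥0∞) * (badBlocks C L J).indicator 1 ξ ∂stepsLaw G =
          L * r ^ J := by
        intro J
        rw [lintegral_const_mul' _ _ (ENNReal.natCast_ne_top L),
          lintegral_indicator_one (measurableSet_badBlocks C L J), badBlocks_measure]
      simp_rw [h1]
      rw [ENNReal.tsum_mul_left, ENNReal.tsum_geometric]
      refine ENNReal.mul_ne_top (ENNReal.natCast_ne_top L) ?_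
      rw [ENNReal.inv_ne_top]
      exact (tsub_pos_of_lt hr1).ne'
    · intro J
      exact ((measurable_one.indicator (measurableSet_badBlocks C L J)).const_mul _).aemeasurable
  · intro ξ hξ
    have hex : ∃ J, ξ ∉ badBlocks C L J := by
      by_contra hc
      push Not at hc
      apply hξ
      have h2 : ∀ J, (L : ℝ≥0∞) * (badBlocks C L J).indicator 1 ξ = L := by
        intro J
        rw [indicator_of_mem (hc J)]; simp
      simp_rw [h2]
      rw [ENNReal.tsum_const_eq_top_of_ne_zero]
      simp [hL]
    set J := Nat.find hex with hJ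
    have hJ1 : ξ ∉ badBlocks C L J := Nat.find_spec hex
    have hJ2 : ∀ J' < J, ξ ∈ badBlocks C L J' := fun J' h => not_not.1 (Nat.find_min hex h)
    refine ⟨J * L, ?_, ?_⟩
    · calc ((J * L : ℕ) : ℝ≥0∞) = ∑ J' ∈ Finset.range J, (L : ℝ≥0∞) := by
            rw [Finset.sum_const, Finset.card_range]; push_cast; simp
        _ = ∑ J' ∈ Finset.range J, (L : ℝ≥0∞) * (badBlocks C L J').indicator 1 ξ := by
            refine Finset.sum_congr rfl fun J' hJ' => ?_
            rw [indicator_of_mem (hJ2 J' (Finset.mem_range.1 hJ'))]; simp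
        _ ≤ _ := ENNReal.sum_le_tsum _
    · intro v
      simp only [badBlocks, mem_ofPred_eq, not_forall, not_exists, not_and, not_not] at hJ1
      obtain ⟨j, hj, hblock⟩ := hJ1
      -- the walk in block j
      by_contra hc
      push Not at hc
      have hjL : j * L + L ≤ J * L := by
        calc j * L + L = (j + 1) * L := by ring
          _ ≤ J * L := Nat.mul_le_mul_right L hj
      have key : ∀ i ≤ L, G.dist (walk ξ v (j * L + i)) w + i ≤ G.dist (walk ξ v (j * L)) w := by
        intro i
        induction i with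
        | zero => intro _; simp
        | succ i ih =>
          intro hi
          have h3 := ih (by omega)
          have h4 : walk ξ v (j * L + i) ≠ w := hc _ (by omega)
          have h5 := hblock i (by omega)
          simp only [hC, mem_ofPred_eq] at h5
          have h6 : walk ξ v (j * L + (i + 1)) = f (walk ξ v (j * L + i)) := by
            rw [← add_assoc, walk]
            exact h5 _ h4
          rw [h6]
          have h7 := (hf _ h4).2
          omega
      have h8 := key L le_rfl
      have h9 := hLd (walk ξ v (j * L))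
      have h10 : G.dist (walk ξ v (j * L + L)) w = 0 := by omega
      have h11 : walk ξ v (j * L + L) = w := (hG.dist_eq_zero_iff).1 h10
      exact hc _ hjL h11

/-- An integrable bound for the universal cover time. -/
lemma exists_cover_bound (G : SimpleGraph V) (hG : G.Connected) :
    ∃ U : Steps V → ℝ≥0∞, Measurable U ∧ ∫⁻ ξ, U ξ ∂stepsLaw G ≠ ∞ ∧
      ∀ ξ, U ξ ≠ ∞ → ∃ t : ℕ, (t : ℝ≥0∞) ≤ U ξ ∧ ∀ v w, ∃ s ≤ t, walk ξ v s = w := by
  choose U hU1 hU2 hU3 using exists_hit_bound G hG
  refine ⟨fun ξ => ∑ w, U w ξ, Finset.measurable_fun_sum _ fun w _ => hU1 w, ?_, ?_⟩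
  · rw [lintegral_finsetSum _ (fun w _ => hU1 w)]
    exact ENNReal.sum_ne_top.2 fun w _ => hU2 w
  · intro ξ hξ
    have h1 : ∀ w, U w ξ ≠ ∞ := fun w => (ENNReal.sum_ne_top.1 hξ) w (Finset.mem_univ w)
    choose t ht1 ht2 using fun w => hU3 w ξ (h1 w)
    refine ⟨∑ w, t w, ?_, ?_⟩
    · push_cast
      exact Finset.sum_le_sum fun w _ => ht1 w
    · intro v w
      obtain ⟨s, hs, hw⟩ := ht2 w v
      exact ⟨s, hs.trans (Finset.single_le_sum (f := t) (fun _ _ => Nat.zero_le _)
        (Finset.mem_univ w)), hw⟩

omit [Fintype V] [MeasurableSpace V] [MeasurableSingletonClass V] in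
lemma suscept_le_of_cover {o : V} {ω : FrogSpace V} {t : ℕ}
    (h : ∀ w, ∃ s ≤ t, walk (ω.2 none) o s = w) : suscept o ω ≤ t := by
  unfold suscept
  refine iInf₂_le t ?_
  refine eq_univ_of_forall fun v => ?_
  obtain ⟨s, hs, hv⟩ := h v
  rw [← hv]
  exact (closed_reached o t ω).1 s hs

/-- The mean susceptibility of a finite connected graph is finite. -/
lemma meanSuscept_ne_top (G : SimpleGraph V) (hG : G.Connected) (o : V) (lam : ℝ≥0) :
    meanSuscept G o lam ≠ ∞ := by
  obtain ⟨U, hU1, hU2, hU3⟩ := exists_cover_bound G hG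
  have h1 : meanSuscept G o lam ≤ ∫⁻ ω : FrogSpace V, U (ω.2 none) ∂frogLaw G lam := by
    unfold meanSuscept
    refine lintegral_mono fun ω => ?_
    by_cases h : U (ω.2 none) = ∞
    · rw [h]; exact le_top
    · obtain ⟨t, ht1, ht2⟩ := hU3 _ h
      exact (suscept_le_of_cover (ht2 o)).trans ht1
  have h2 : ∫⁻ ω : FrogSpace V, U (ω.2 none) ∂frogLaw G lam = ∫⁻ ξ, U ξ ∂stepsLaw G := by
    unfold frogLaw
    have hp1 := measurePreserving_snd (μ := Measure.pi fun _ : V => poissonMeasure lam)
      (ν := Measure.infinitePi fun _ : Option (V × ℕ) => stepsLaw G)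
    have hp2 := measurePreserving_eval_infinitePi
      (fun _ : Option (V × ℕ) => stepsLaw G) none
    have := (hp2.comp hp1).lintegral_comp hU1
    exact this
  rw [h2] at h1
  exact ne_top_of_le_ne_top hU2 h1

end H411Frog
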