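import Mathlib
import Pool.Agent.H411R3.FrogBasic

open MeasureTheory ProbabilityTheory Set Filter
open scoped ENNReal NNReal Topology

namespace H411Frog

variable {V : Type*} [Fintype V] [MeasurableSpace V] [MeasurableSingletonClass V]

lemma hasSum_mul_poisson (lam : ℝ≥0) :
    HasSum (fun k : ℕ => (k : ℝ) * (Real.exp (-lam) * lam ^ k / (k.factorial : ℝ))) lam := by
  rw [← hasSum_nat_add_iff' 1]
  have := (hasSum_one_poissonMeasure lam).mul_left (lam : ℝ)
  simp only [Finset.range_one, Finset.sum_singleton, Nat.cast_zero, zero_mul, sub_zero]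
  rw [mul_one] at this
  have e : (fun n : ℕ => ((n + 1 : ℕ) : ℝ) *
      (Real.exp (-lam) * lam ^ (n + 1) / ((n + 1).factorial : ℝ))) =
      fun n : ℕ => (lam : ℝ) * (Real.exp (-lam) * lam ^ n / (n.factorial : ℝ)) := by
    funext n
    rw [Nat.factorial_succ]
    push_cast
    have h1 : (n.factorial : ℝ) ≠ 0 := by exact_mod_cast Nat.factorial_ne_zero n
    have h2 : (n : ℝ) + 1 ≠ 0 := by positivity
    field_simp
    ring
  rw [e]
  exact this

lemma lintegral_poisson (lam : ℝ≥0) :
    ∫⁻ k, (k : ℝ≥0∞) ∂(poissonMeasure lam) = lam := by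
  rw [lintegral_countable']
  simp_rw [poissonMeasure_singleton]
  have h := hasSum_mul_poisson lam
  have h2 : ∀ k : ℕ, (k : ℝ≥0∞) * ENNReal.ofReal (Real.exp (-lam) * lam ^ k / (k.factorial : ℝ)) =
      ENNReal.ofReal ((k : ℝ) * (Real.exp (-lam) * lam ^ k / (k.factorial : ℝ))) := by
    intro k
    rw [ENNReal.ofReal_mul (by positivity), ENNReal.ofReal_natCast]
  simp_rw [h2]
  rw [← ENNReal.ofReal_tsum_of_nonneg (fun k => by positivity) h.summable, h.tsum_eq]
  simp

omit [MeasurableSpace V] [MeasurableSingletonClass V] in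
lemma frogEvent_card {o : V} {k : ℕ} {ω : FrogSpace V} (h : ω ∈ frogEvent o k) :
    Fintype.card V ≤ (k + 1) * (1 + ∑ v, ω.1 v) := by
  classical
  obtain ⟨τ, hτ, hr⟩ := h
  let W : Finset V := (Finset.range (τ+1)).image (walk (ω.2 none) o) ∪
    Finset.univ.biUnion (fun u => (Finset.range (ω.1 u)).biUnion
      fun i => (Finset.range (τ+1)).image (walk (ω.2 (some (u,i))) u))
  have hW : Closed o τ ω (W : Set V) := by
    constructor
    · intro t ht
      simp only [W, Finset.coe_union, mem_union, Finset.mem_coe, Finset.mem_image,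
        Finset.mem_range]
      exact Or.inl ⟨t, by omega, rfl⟩
    · intro u _ i hi t ht
      simp only [W, Finset.coe_union, mem_union, Finset.mem_coe, Finset.mem_image,
        Finset.mem_range, Finset.mem_biUnion]
      exact Or.inr ⟨u, Finset.mem_univ _, i, hi, t, by omega, rfl⟩
  have h1 : (Finset.univ : Finset V) ⊆ W := by
    intro v _
    have : v ∈ reached o τ ω := by rw [hr]; exact mem_univ v
    exact_mod_cast reached_subset hW this
  have h2 := Finset.card_le_card h1
  rw [Finset.card_univ] at h2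
  have h3 : W.card ≤ (τ + 1) + ∑ u, ω.1 u * (τ + 1) := by
    refine (Finset.card_union_le _ _).trans ?_
    refine add_le_add ?_ ?_
    · exact Finset.card_image_le.trans (by simp)
    · refine Finset.card_biUnion_le.trans ?_
      refine Finset.sum_le_sum fun u _ => ?_
      refine Finset.card_biUnion_le.trans ?_
      calc ∑ i ∈ Finset.range (ω.1 u), ((Finset.range (τ+1)).image
              (walk (ω.2 (some (u,i))) u)).card
          ≤ ∑ i ∈ Finset.range (ω.1 u), (τ + 1) := by
            refine Finset.sum_le_sum fun i _ => ?_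
            exact Finset.card_image_le.trans (by simp)
        _ = ω.1 u * (τ + 1) := by simp
  rw [← Finset.sum_mul] at h3
  calc Fintype.card V ≤ (τ + 1) + (∑ u, ω.1 u) * (τ + 1) := h2.trans h3
    _ = (τ + 1) * (1 + ∑ u, ω.1 u) := by ring
    _ ≤ (k + 1) * (1 + ∑ u, ω.1 u) := by gcongr

lemma lintegral_total (G : SimpleGraph V) (lam : ℝ≥0) :
    ∫⁻ ω : FrogSpace V, (∑ v, (ω.1 v : ℝ≥0∞)) ∂frogLaw G lam = Fintype.card V * lam := by
  have hmeas : ∀ v : V, Measurable fun ω : FrogSpace V => (ω.1 v : ℝ≥0∞) := by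
    intro v
    exact (measurable_from_top (f := fun k : ℕ => (k : ℝ≥0∞))).comp
      ((measurable_pi_apply v).comp measurable_fst)
  rw [lintegral_finsetSum _ (fun v _ => hmeas v)]
  have h1 : ∀ v : V, ∫⁻ ω : FrogSpace V, (ω.1 v : ℝ≥0∞) ∂frogLaw G lam = lam := by
    intro v
    unfold frogLaw
    rw [lintegral_prod]
    · simp only [lintegral_const, measure_univ, mul_one]
      have := (measurePreserving_eval (fun _ : V => poissonMeasure lam) v).lintegral_comp
        (f := fun k : ℕ => (k : ℝ≥0∞)) (measurable_from_top)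
      simp only [Function.eval] at this
      rw [this, lintegral_poisson]
    · exact (hmeas v).aemeasurable
  simp_rw [h1]
  simp

/-- Markov bound: `P(S ≤ k) (|V| - (k+1)) ≤ (k+1) |V| λ`. -/
lemma frogEvent_markov (G : SimpleGraph V) (o : V) (k : ℕ) (lam : ℝ≥0) :
    ((Fintype.card V - (k + 1) : ℕ) : ℝ≥0∞) * frogLaw G lam (frogEvent o k) ≤
      (k + 1 : ℕ) * (Fintype.card V * lam) := by
  have hmeas : Measurable fun ω : FrogSpace V => (((k + 1 : ℕ) : ℝ≥0∞) *
      ∑ v, (ω.1 v : ℝ≥0∞)) := by
    refine Measurable.const_mul ?_ _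
    refine Finset.measurable_fun_sum _ fun v _ => ?_
    exact (measurable_from_top (f := fun k : ℕ => (k : ℝ≥0∞))).comp
      ((measurable_pi_apply v).comp measurable_fst)
  have h1 := mul_meas_ge_le_lintegral (μ := frogLaw G lam) hmeas
    ((Fintype.card V - (k + 1) : ℕ) : ℝ≥0∞)
  have h2 : ∫⁻ ω : FrogSpace V, (((k + 1 : ℕ) : ℝ≥0∞) * ∑ v, (ω.1 v : ℝ≥0∞)) ∂frogLaw G lam =
      (k + 1 : ℕ) * (Fintype.card V * lam) := by
    rw [lintegral_const_mul', lintegral_total]
    exact ENNReal.natCast_ne_top _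
  rw [h2] at h1
  refine le_trans ?_ h1
  gcongr
  intro ω hω
  have := frogEvent_card hω
  simp only [mem_ofPred_eq]
  have h3 : Fintype.card V - (k + 1) ≤ (k + 1) * ∑ v, ω.1 v := by
    have : (k + 1) * (1 + ∑ v, ω.1 v) = (k + 1) + (k+1) * ∑ v, ω.1 v := by ring
    omega
  exact_mod_cast h3

lemma frogEvent_zero (G : SimpleGraph V) (o : V) (k : ℕ) (hk : k + 2 ≤ Fintype.card V) :
    frogLaw G 0 (frogEvent o k) = 0 := by
  have h := frogEvent_markov G o k 0
  simp only [ENNReal.coe_zero, mul_zero, nonpos_iff_eq_zero, mul_eq_zero, Nat.cast_eq_zero] at h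
  rcases h with h | h
  · omega
  · exact h

/-! ### continuity in the density -/

/-- Weight of a configuration of counts. -/
noncomputable def wt (lam : ℝ≥0) (N : V → ℕ) : ℝ :=
  ∏ v, (Real.exp (-lam) * lam ^ (N v) / ((N v).factorial : ℝ))

omit [MeasurableSpace V] [MeasurableSingletonClass V] in
lemma pi_poisson_singleton (lam : ℝ≥0) (N : V → ℕ) :
    (Measure.pi fun _ : V => poissonMeasure lam) {N} = ENNReal.ofReal (wt lam N) := by
  rw [Measure.pi_singleton]
  simp_rw [poissonMeasure_singleton]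
  unfold wt
  rw [ENNReal.ofReal_prod_of_nonneg]
  intro v _
  positivity

omit [MeasurableSpace V] [MeasurableSingletonClass V] in
lemma wt_nonneg (lam : ℝ≥0) (N : V → ℕ) : 0 ≤ wt lam N := by
  unfold wt
  exact Finset.prod_nonneg fun v _ => by positivity

omit [MeasurableSpace V] [MeasurableSingletonClass V] in
lemma summable_wt (lam : ℝ≥0) : Summable (wt lam : (V → ℕ) → ℝ) := by
  have h1 : ∑' N : V → ℕ, ENNReal.ofReal (wt lam N) = 1 := by
    have h2 : (Measure.pi fun _ : V => poissonMeasure lam) univ = 1 := measure_univ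
    rw [← lintegral_one, lintegral_countable'] at h2
    simp_rw [pi_poisson_singleton, one_mul] at h2
    exact h2
  have h3 : Summable fun N : V → ℕ => (ENNReal.ofReal (wt lam N)).toReal :=
    ENNReal.summable_toReal (by rw [h1]; exact ENNReal.one_ne_top)
  convert h3 using 2 with N
  rw [ENNReal.toReal_ofReal (wt_nonneg lam N)]

lemma frogLaw_real_eq (G : SimpleGraph V) (lam : ℝ≥0) {A : Set (FrogSpace V)}
    (hA : MeasurableSet A) :
    (frogLaw G lam).real A = ∑' N : V → ℕ,
      ((Measure.infinitePi fun _ : Option (V × ℕ) => stepsLaw G) (Prod.mk N ⁻¹' A)).toReal *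
        wt lam N := by
  unfold frogLaw
  rw [measureReal_def, Measure.prod_apply hA, lintegral_countable']
  simp_rw [pi_poisson_singleton]
  rw [ENNReal.tsum_toReal_eq]
  · refine tsum_congr fun N => ?_
    rw [ENNReal.toReal_mul, ENNReal.toReal_ofReal (wt_nonneg lam N)]
  · intro N
    exact ENNReal.mul_ne_top (measure_ne_top _ _) ENNReal.ofReal_ne_top

lemma continuousOn_frogLaw (G : SimpleGraph V) {A : Set (FrogSpace V)}
    (hA : MeasurableSet A) (L : ℝ≥0) :
    ContinuousOn (fun lam : ℝ≥0 => (frogLaw G lam).real A) (Icc 0 L) := by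
  simp_rw [frogLaw_real_eq G _ hA]
  refine continuousOn_tsum (u := fun N => (Real.exp L) ^ (Fintype.card V) * wt L N) ?_ ?_ ?_
  · intro N
    refine ContinuousOn.mul continuousOn_const ?_
    unfold wt
    refine Continuous.continuousOn ?_
    refine continuous_finsetProd _ fun v _ => ?_
    fun_prop
  · exact (summable_wt L).mul_left _
  · intro N lam hlam
    have hl : (lam : ℝ) ≤ L := by exact_mod_cast hlam.2
    have h1 : ((Measure.infinitePi fun _ : Option (V × ℕ) => stepsLaw G)
        (Prod.mk N ⁻¹' A)).toReal ≤ 1 := by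
      have := prob_le_one (μ := (Measure.infinitePi fun _ : Option (V × ℕ) => stepsLaw G))
        (s := Prod.mk N ⁻¹' A)
      exact ENNReal.toReal_le_of_le_ofReal zero_le_one (by simpa using this)
    have h2 : wt lam N ≤ (Real.exp L) ^ (Fintype.card V) * wt L N := by
      unfold wt
      rw [← Finset.card_univ, ← Finset.prod_const, ← Finset.prod_mul_distrib]
      refine Finset.prod_le_prod (fun v _ => by positivity) fun v _ => ?_
      have h3 : Real.exp L * (Real.exp (-L) * L ^ (N v) / ((N v).factorial : ℝ)) =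
          (L : ℝ) ^ (N v) / ((N v).factorial : ℝ) := by
        rw [← mul_div_assoc, ← mul_assoc, ← Real.exp_add]
        simp
      rw [h3]
      have h4 : Real.exp (-(lam : ℝ)) ≤ 1 := by
        rw [Real.exp_le_one_iff]; simp
      have h5 : (lam : ℝ) ^ (N v) ≤ (L : ℝ) ^ (N v) := by gcongr
      have h6 : Real.exp (-(lam : ℝ)) * (lam : ℝ) ^ (N v) ≤ (L : ℝ) ^ (N v) := by
        calc Real.exp (-(lam : ℝ)) * (lam : ℝ) ^ (N v) ≤ 1 * (L : ℝ) ^ (N v) := by gcongr
          _ = _ := one_mul _
      gcongr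
    rw [Real.norm_of_nonneg (mul_nonneg ENNReal.toReal_nonneg (wt_nonneg _ _))]
    calc _ ≤ 1 * wt lam N := by gcongr; exact wt_nonneg _ _
      _ = wt lam N := one_mul _
      _ ≤ _ := h2

end H411Frog
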