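import Mathlib
import Pool.Agent.H411R3.FrogQ1

open MeasureTheory ProbabilityTheory Set Filter
open scoped ENNReal NNReal Topology

namespace H411Frog

variable {V : Type*} [Fintype V] [MeasurableSpace V] [MeasurableSingletonClass V]

/-- every directed edge is used in the first step of one of the first `M` particles -/
def edgeEvent (G : SimpleGraph V) (M : ℕ) : Set (Option (V × ℕ) → Steps V) :=
  {x | ∀ u v, G.Adj u v → ∃ i < M, x (some (u, i)) 0 u = v}

/-- the first `M` particles at `u` do not step to `v` -/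
def missEvent (G : SimpleGraph V) (M : ℕ) (u v : V) : Set (Option (V × ℕ) → Steps V) :=
  {x | G.Adj u v ∧ ∀ i < M, x (some (u, i)) 0 u ≠ v}

omit [Fintype V] in
lemma measurableSet_missEvent (G : SimpleGraph V) (M : ℕ) (u v : V) :
    MeasurableSet (missEvent G M u v) := by
  have e : missEvent G M u v = {_x | G.Adj u v} ∩
      ⋂ (i : ℕ) (_ : i < M), {x : Option (V × ℕ) → Steps V | x (some (u, i)) 0 u = v}ᶜ := by
    ext x; simp [missEvent]
  rw [e]
  refine (MeasurableSet.const _).inter (MeasurableSet.iInter fun i => MeasurableSet.iInter fun _ => ?_)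
  refine MeasurableSet.compl ?_
  have : Measurable fun x : Option (V × ℕ) → Steps V => x (some (u, i)) 0 u :=
    (measurable_pi_apply u).comp ((measurable_pi_apply 0).comp (measurable_pi_apply (some (u, i))))
  exact this (measurableSet_singleton v)

lemma missEvent_le (G : SimpleGraph V) (M : ℕ) (u v : V) :
    (Measure.infinitePi fun _ : Option (V × ℕ) => stepsLaw G) (missEvent G M u v) ≤
      (stepLaw G u {v}ᶜ) ^ M := by
  classical
  have hsub : missEvent G M u v ⊆
      Set.pi ((((Finset.range M).image fun i => (some (u, i) : Option (V × ℕ))) : Finset _) :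
        Set (Option (V × ℕ))) (fun _ => {ξ : Steps V | ξ 0 u ∈ ({v}ᶜ : Set V)}) := by
    intro x hx a ha
    simp only [Finset.coe_image, Finset.coe_range, mem_image, mem_Iio] at ha
    obtain ⟨i, hi, rfl⟩ := ha
    exact hx.2 i hi
  refine (measure_mono hsub).trans ?_
  rw [Measure.infinitePi_pi]
  · rw [Finset.prod_const, Finset.card_image_of_injective, Finset.card_range]
    · rw [stepsLaw_step]
    · intro i j hij
      simpa using hij
  · intro a _
    have : Measurable fun ξ : Steps V => ξ 0 u :=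
      (measurable_pi_apply u).comp (measurable_pi_apply 0)
    exact this (measurableSet_singleton v).compl

lemma stepLaw_compl_lt_one (G : SimpleGraph V) {u v : V} (h : G.Adj u v) :
    stepLaw G u {v}ᶜ < 1 := by
  have h1 := prob_compl_eq_one_sub (μ := stepLaw G u) (measurableSet_singleton v)
  rw [h1]
  exact ENNReal.sub_lt_self ENNReal.one_ne_top one_ne_zero (stepLaw_singleton_ne_zero G h)

lemma exists_edgeEvent (G : SimpleGraph V) {ε : ℝ≥0∞} (hε : 0 < ε) :
    ∃ M : ℕ, (Measure.infinitePi fun _ : Option (V × ℕ) => stepsLaw G) (edgeEvent G M)ᶜ < ε := by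
  have hsub : ∀ M, (edgeEvent G M)ᶜ ⊆ ⋃ p : V × V, missEvent G M p.1 p.2 := by
    intro M x hx
    simp only [edgeEvent, mem_compl_iff, mem_ofPred_eq, not_forall, not_exists, not_and] at hx
    obtain ⟨u, v, h, hx⟩ := hx
    exact mem_iUnion.2 ⟨(u, v), h, hx⟩
  have hlim : Tendsto (fun M : ℕ => ∑ p : V × V,
      (Measure.infinitePi fun _ : Option (V × ℕ) => stepsLaw G) (missEvent G M p.1 p.2))
      atTop (𝓝 0) := by
    have : (0 : ℝ≥0∞) = ∑ p : V × V, 0 := by simp
    rw [this]
    refine tendsto_finsetSum _ fun p _ => ?_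
    by_cases h : G.Adj p.1 p.2
    · have h1 := ENNReal.tendsto_pow_atTop_nhds_zero_of_lt_one (stepLaw_compl_lt_one G h)
      exact tendsto_of_tendsto_of_tendsto_of_le_of_le tendsto_const_nhds h1
        (fun _ => zero_le) (fun M => missEvent_le G M p.1 p.2)
    · have : ∀ M, missEvent G M p.1 p.2 = ∅ := by
        intro M; ext x; simp [missEvent, h]
      simp [this]
  obtain ⟨M, hM⟩ := (hlim.eventually (gt_mem_nhds hε)).exists
  refine ⟨M, lt_of_le_of_lt ?_ hM⟩
  exact (measure_mono (hsub M)).trans (measure_iUnion_fintype_le _ _)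

lemma tendsto_poisson_Iio (M : ℕ) :
    Tendsto (fun lam : ℝ≥0 => poissonMeasure lam (Iio M)) atTop (𝓝 0) := by
  have e : ∀ lam : ℝ≥0, poissonMeasure lam (Iio M) =
      ∑ k ∈ Finset.range M, ENNReal.ofReal (Real.exp (-lam) * lam ^ k / (k.factorial : ℝ)) := by
    intro lam
    have : (Iio M : Set ℕ) = ((Finset.range M : Finset ℕ) : Set ℕ) := by ext; simp
    rw [this, ← sum_measure_singleton]
    simp_rw [poissonMeasure_singleton]
  simp_rw [e]
  have h0 : (0 : ℝ≥0∞) = ∑ k ∈ Finset.range M, 0 := by simp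
  rw [h0]
  refine tendsto_finsetSum _ fun k _ => ?_
  rw [← ENNReal.ofReal_zero]
  refine (ENNReal.continuous_ofReal.tendsto 0).comp ?_
  have h1 := Real.tendsto_pow_mul_exp_neg_atTop_nhds_zero k
  have h2 : Tendsto (fun lam : ℝ≥0 => (lam : ℝ)) atTop atTop := NNReal.tendsto_coe_atTop.2 tendsto_id
  have h3 := (h1.comp h2).div_const (k.factorial : ℝ)
  simp only [zero_div] at h3
  refine h3.congr fun lam => ?_
  simp only [Function.comp]
  ring

omit [MeasurableSpace V] [MeasurableSingletonClass V] in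
lemma exists_poisson_big (M : ℕ) {ε : ℝ≥0∞} (hε : 0 < ε) :
    ∃ lam : ℝ≥0, (Measure.pi fun _ : V => poissonMeasure lam) {N | ∀ v, M ≤ N v}ᶜ < ε := by
  have hsub : ({N : V → ℕ | ∀ v, M ≤ N v}ᶜ : Set (V → ℕ)) ⊆ ⋃ v : V, {N | N v ∈ Iio M} := by
    intro N hN
    simp only [mem_compl_iff, mem_ofPred_eq, not_forall, not_le] at hN
    obtain ⟨v, hv⟩ := hN
    exact mem_iUnion.2 ⟨v, hv⟩
  have hlim : Tendsto (fun lam : ℝ≥0 => ∑ v : V,
      (Measure.pi fun _ : V => poissonMeasure lam) {N | N v ∈ Iio M}) atTop (𝓝 0) := by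
    have h0 : (0 : ℝ≥0∞) = ∑ v : V, 0 := by simp
    rw [h0]
    refine tendsto_finsetSum _ fun v _ => ?_
    have h1 := tendsto_poisson_Iio M
    refine h1.congr fun lam => ?_
    have h2 := (measurePreserving_eval (fun _ : V => poissonMeasure lam) v).measure_preimage
      (s := Iio M) (measurableSet_Iio.nullMeasurableSet)
    rw [← h2]
    rfl
  obtain ⟨lam, hlam⟩ := (hlim.eventually (gt_mem_nhds hε)).exists
  refine ⟨lam, lt_of_le_of_lt ?_ hlam⟩
  exact (measure_mono hsub).trans (measure_iUnion_fintype_le _ _)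

omit [Fintype V] [MeasurableSpace V] [MeasurableSingletonClass V] in
lemma reached_of_edges {G : SimpleGraph V} (hG : G.Connected) (o : V) {M : ℕ} {ω : FrogSpace V}
    (h1 : ∀ v, M ≤ ω.1 v)
    (h2 : ∀ u v, G.Adj u v → ∃ i < M, ω.2 (some (u, i)) 0 u = v) :
    reached o 1 ω = univ := by
  have hc := closed_reached o 1 ω
  have ho : o ∈ reached o 1 ω := hc.1 0 (by norm_num)
  have hstep : ∀ u v, G.Adj u v → u ∈ reached o 1 ω → v ∈ reached o 1 ω := by
    intro u v huv hu
    obtain ⟨i, hi, hiv⟩ := h2 u v huv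
    have := hc.2 u hu i (lt_of_lt_of_le hi (h1 u)) 1 le_rfl
    rw [← hiv]
    exact this
  have hall : ∀ u v, G.Reachable u v → u ∈ reached o 1 ω → v ∈ reached o 1 ω := by
    rintro u v ⟨w⟩
    induction w with
    | nil => exact id
    | cons hadj _ ih => exact fun h => ih (hstep _ _ hadj h)
  exact eq_univ_of_forall fun v => hall o v (hG.preconnected o v) ho

lemma exists_big (G : SimpleGraph V) (hG : G.Connected) (o : V) (k : ℕ) (hk : 1 ≤ k) :
    ∃ L : ℝ≥0, 1 / 2 < (frogLaw G L).real (frogEvent o k) := by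
  obtain ⟨M, hM⟩ := exists_edgeEvent G (ε := 1 / 4) (by norm_num)
  obtain ⟨L, hL⟩ := exists_poisson_big (V := V) M (ε := 1 / 4) (by norm_num)
  refine ⟨L, ?_⟩
  set ν := (Measure.infinitePi fun _ : Option (V × ℕ) => stepsLaw G)
  set μ := (Measure.pi fun _ : V => poissonMeasure L)
  have hsub : (frogEvent o k : Set (FrogSpace V))ᶜ ⊆
      (({N : V → ℕ | ∀ v, M ≤ N v}ᶜ ×ˢ univ) ∪ (univ ×ˢ (edgeEvent G M)ᶜ)) := by
    intro ω hω
    by_contra hc
    simp only [mem_union, mem_prod, mem_univ, and_true, true_and, not_or, mem_compl_iff,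
      not_not] at hc
    exact hω ⟨1, hk, reached_of_edges hG o hc.1 hc.2⟩
  have h1 : frogLaw G L (frogEvent o k)ᶜ < 1 / 2 := by
    calc frogLaw G L (frogEvent o k)ᶜ ≤ frogLaw G L
            (({N : V → ℕ | ∀ v, M ≤ N v}ᶜ ×ˢ univ) ∪ (univ ×ˢ (edgeEvent G M)ᶜ)) :=
          measure_mono hsub
      _ ≤ frogLaw G L (({N : V → ℕ | ∀ v, M ≤ N v}ᶜ ×ˢ univ)) +
          frogLaw G L (univ ×ˢ (edgeEvent G M)ᶜ) := measure_union_le _ _
      _ = μ {N : V → ℕ | ∀ v, M ≤ N v}ᶜ + ν (edgeEvent G M)ᶜ := by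
          unfold frogLaw
          rw [Measure.prod_prod, Measure.prod_prod]
          simp [μ, ν]
      _ < 1 / 4 + 1 / 4 := ENNReal.add_lt_add hL hM
      _ = 1 / 2 := by
          rw [← two_mul]
          have : (4 : ℝ≥0∞) = 2 * 2 := by norm_num
          rw [this, one_div, one_div, ENNReal.mul_inv (by norm_num) (by norm_num), ← mul_assoc,
            ENNReal.mul_inv_cancel (by norm_num) (by norm_num), one_mul]
  have h2 : (frogLaw G L).real (frogEvent o k)ᶜ < 1 / 2 := by
    rw [measureReal_def]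
    have := (ENNReal.toReal_lt_toReal (measure_ne_top _ _) (by norm_num)).2 h1
    simpa using this
  rw [probReal_compl_eq_one_sub (measurableSet_frogEvent o k)] at h2
  linarith

/-- For every finite connected graph with at least `k + 2` vertices there is a density at which
`P(S ≤ k) = 1/2` exactly. -/
lemma exists_half (G : SimpleGraph V) (hG : G.Connected) (o : V) (k : ℕ) (hk : 1 ≤ k)
    (hV : k + 2 ≤ Fintype.card V) :
    ∃ lam : ℝ≥0, 0 < lam ∧ (frogLaw G lam).real (frogEvent o k) = 1 / 2 := by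
  obtain ⟨L, hL⟩ := exists_big G hG o k hk
  have h0 : (frogLaw G 0).real (frogEvent o k) = 0 := by
    rw [measureReal_def, frogEvent_zero G o k hV]; simp
  have hcont := continuousOn_frogLaw G (measurableSet_frogEvent o k) L
  have hiv := intermediate_value_Icc (show (0 : ℝ≥0) ≤ L from zero_le) hcont
  have hmem : (1 / 2 : ℝ) ∈ Icc ((frogLaw G 0).real (frogEvent o k))
      ((frogLaw G L).real (frogEvent o k)) := by
    rw [h0]; exact ⟨by norm_num, hL.le⟩
  obtain ⟨lam, hlam, hval⟩ := hiv hmem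
  refine ⟨lam, ?_, hval⟩
  rcases eq_or_ne lam 0 with rfl | h
  · simp only at hval
    rw [h0] at hval; norm_num at hval
  · exact pos_iff_ne_zero.2 h

/-- At such a density, `λ |V| ≥ (|V| - k - 1) / (2 (k + 1))`. -/
lemma lower_of_half (G : SimpleGraph V) (o : V) (k : ℕ) {lam : ℝ≥0}
    (h : (frogLaw G lam).real (frogEvent o k) = 1 / 2) :
    ((Fintype.card V : ℝ) - (k + 1)) / (2 * (k + 1)) ≤ lam * Fintype.card V := by
  have h1 := frogEvent_markov G o k lam
  have h2 : ((Fintype.card V - (k + 1) : ℕ) : ℝ) * (frogLaw G lam).real (frogEvent o k) ≤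
      (k + 1 : ℕ) * (Fintype.card V * lam) := by
    have h3 := ENNReal.toReal_mono (by
      refine ENNReal.mul_ne_top (ENNReal.natCast_ne_top _) ?_
      exact ENNReal.mul_ne_top (ENNReal.natCast_ne_top _) ENNReal.coe_ne_top) h1
    rw [ENNReal.toReal_mul, ENNReal.toReal_mul, ENNReal.toReal_mul, ENNReal.toReal_natCast,
      ENNReal.toReal_natCast, ENNReal.toReal_natCast, ENNReal.coe_toReal] at h3
    exact h3
  rw [h] at h2
  have h4 : (Fintype.card V : ℝ) - (k + 1) ≤ ((Fintype.card V - (k + 1) : ℕ) : ℝ) := by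
    rcases le_total (k + 1) (Fintype.card V) with h5 | h5
    · rw [Nat.cast_sub h5]; push_cast; rfl
    · have : (Fintype.card V : ℝ) ≤ (k : ℝ) + 1 := by exact_mod_cast h5
      have h6 : (0 : ℝ) ≤ ((Fintype.card V - (k + 1) : ℕ) : ℝ) := Nat.cast_nonneg _
      linarith
  rw [div_le_iff₀ (by positivity)]
  push_cast at h2
  nlinarith

end H411Frog
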