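import Mathlib
import Pool.Agent.H411R3.FrogHit

open MeasureTheory ProbabilityTheory Set Filter
open scoped ENNReal NNReal Topology

namespace H411Frog

variable {V : Type*} [Fintype V] [MeasurableSpace V] [MeasurableSingletonClass V]

instance [Nonempty V] : IsProbabilityMeasure (uniformOn (univ : Set V)) :=
  isProbabilityMeasure_uniformOn (Set.toFinite _) univ_nonempty

instance [Nonempty V] (G : SimpleGraph V) (m : ℕ) : IsProbabilityMeasure (walkersLaw G m) := by
  unfold walkersLaw; infer_instance

/-- all vertices are visited by time `k` -/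
def coverEvent (V : Type*) (m k : ℕ) : Set (Fin m → V × Steps V) :=
  {ω | ∀ v, ∃ j, ∃ s ≤ k, walk (ω j).2 (ω j).1 s = v}

lemma measurable_walk' (s : ℕ) : Measurable fun p : V × Steps V => walk p.2 p.1 s := by
  refine measurable_from_prod_countable_right fun v => ?_
  exact measurable_walk v s

lemma measurableSet_visits (v : V) (k : ℕ) :
    MeasurableSet {p : V × Steps V | ∃ s ≤ k, walk p.2 p.1 s = v} := by
  have : {p : V × Steps V | ∃ s ≤ k, walk p.2 p.1 s = v} =
      ⋃ (s : ℕ) (_ : s ≤ k), {p : V × Steps V | walk p.2 p.1 s = v} := by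
    ext p; simp
  rw [this]
  exact MeasurableSet.iUnion fun s => MeasurableSet.iUnion fun _ =>
    (measurable_walk' s) (measurableSet_singleton v)

lemma measurableSet_coverEvent (m k : ℕ) : MeasurableSet (coverEvent V m k) := by
  have : coverEvent V m k = ⋂ v : V, ⋃ j : Fin m,
      (fun ω : Fin m → V × Steps V => ω j) ⁻¹' {p | ∃ s ≤ k, walk p.2 p.1 s = v} := by
    ext ω; simp [coverEvent]
  rw [this]
  exact MeasurableSet.iInter fun v => MeasurableSet.iUnion fun j =>
    (measurable_pi_apply j) (measurableSet_visits v k)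

omit [Fintype V] [MeasurableSpace V] [MeasurableSingletonClass V] in
lemma coverTime_le_of_mem {m k : ℕ} {ω : Fin m → V × Steps V} (h : ω ∈ coverEvent V m k) :
    coverTime ω ≤ k := iInf₂_le k h

omit [Fintype V] [MeasurableSpace V] [MeasurableSingletonClass V] in
lemma le_coverTime_of_notMem {m k : ℕ} {ω : Fin m → V × Steps V} (h : ω ∉ coverEvent V m k) :
    (k : ℝ≥0∞) + 1 ≤ coverTime ω := by
  refine le_iInf₂ fun t ht => ?_
  have : k + 1 ≤ t := by
    by_contra hc
    refine h fun v => ?_
    obtain ⟨j, s, hs, hv⟩ := ht v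
    exact ⟨j, s, by omega, hv⟩
  exact_mod_cast this

lemma measurable_coverTime (m : ℕ) :
    Measurable (coverTime : (Fin m → V × Steps V) → ℝ≥0∞) := by
  classical
  unfold coverTime
  refine Measurable.iInf fun t => ?_
  have e : (fun ω : Fin m → V × Steps V =>
      ⨅ (_ : ∀ v, ∃ j, ∃ s ≤ t, walk (ω j).2 (ω j).1 s = v), (t : ℝ≥0∞)) =
      fun ω => if ω ∈ coverEvent V m t then (t : ℝ≥0∞) else ⊤ := by
    ext ω
    split_ifs with h
    · have h' : ∀ v, ∃ j, ∃ s ≤ t, walk (ω j).2 (ω j).1 s = v := h
      simp [h']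
    · have h' : ¬ ∀ v, ∃ j, ∃ s ≤ t, walk (ω j).2 (ω j).1 s = v := h
      simp only [h', iInf_false]
  rw [e]
  exact Measurable.ite (measurableSet_coverEvent m t) measurable_const measurable_const

/-- The mean cover time of at least one walk on a finite connected graph is finite. -/
lemma meanCover_ne_top [Nonempty V] (G : SimpleGraph V) (hG : G.Connected) {m : ℕ} (hm : 0 < m) :
    meanCover G m ≠ ∞ := by
  obtain ⟨U, hU1, hU2, hU3⟩ := exists_cover_bound G hG
  let j0 : Fin m := ⟨0, hm⟩
  have h1 : meanCover G m ≤ ∫⁻ ω : Fin m → V × Steps V, U (ω j0).2 ∂walkersLaw G m := by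
    unfold meanCover
    refine lintegral_mono fun ω => ?_
    by_cases h : U (ω j0).2 = ∞
    · rw [h]; exact le_top
    · obtain ⟨t, ht1, ht2⟩ := hU3 _ h
      refine le_trans ?_ ht1
      refine coverTime_le_of_mem fun v => ?_
      exact ⟨j0, ht2 _ v⟩
  have h2 : ∫⁻ ω : Fin m → V × Steps V, U (ω j0).2 ∂walkersLaw G m = ∫⁻ ξ, U ξ ∂stepsLaw G := by
    unfold walkersLaw
    have hp1 := measurePreserving_snd (μ := uniformOn (univ : Set V)) (ν := stepsLaw G)
    have hp2 := measurePreserving_eval
      (fun _ : Fin m => (uniformOn (univ : Set V)).prod (stepsLaw G)) j0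
    exact (hp1.comp hp2).lintegral_comp hU1
  rw [h2] at h1
  exact ne_top_of_le_ne_top hU2 h1

lemma uniformOn_univ_singleton (v : V) :
    uniformOn (univ : Set V) {v} = (Fintype.card V : ℝ≥0∞)⁻¹ := by
  rw [uniformOn_univ, Measure.count_singleton, one_div]

/-- On a `d`-regular graph (`d ≠ 0`) the column sums of the transition matrices are `1`. -/
lemma sum_walk (G : SimpleGraph V) {d : ℕ} (hd : ∀ v, (G.neighborSet v).ncard = d) (hd0 : d ≠ 0)
    (s : ℕ) (v : V) : ∑ x, stepsLaw G {ξ | walk ξ x s = v} = 1 := by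
  classical
  induction s generalizing v with
  | zero =>
    have : ∀ x, stepsLaw G {ξ : Steps V | walk ξ x 0 = v} = if x = v then 1 else 0 := by
      intro x
      split_ifs with h
      · have : {ξ : Steps V | walk ξ x 0 = v} = univ := by ext ξ; simp [walk, h]
        rw [this, measure_univ]
      · have : {ξ : Steps V | walk ξ x 0 = v} = ∅ := by ext ξ; simp [walk, h]
        rw [this, measure_empty]
    simp_rw [this]
    simp
  | succ s ih =>
    have h1 : ∀ x, stepsLaw G {ξ : Steps V | walk ξ x (s + 1) = v} =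
        ∑ y, stepsLaw G {ξ | walk ξ x s = y} * stepLaw G y {v} := by
      intro x
      have e : {ξ : Steps V | walk ξ x (s + 1) = v} =
          ⋃ y ∈ (Finset.univ : Finset V), ({ξ | walk ξ x s = y} ∩ {ξ | ξ s y ∈ ({v} : Set V)}) := by
        ext ξ
        simp [walk]
      rw [e, measure_biUnion_finset]
      · refine Finset.sum_congr rfl fun y _ => ?_
        rw [stepsLaw_inter G (n := s) (m := s + 1), stepsLaw_step]
        · intro ξ ξ' h
          have : ∀ t ≤ s, walk ξ x t = walk ξ' x t := by
            intro t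
            induction t with
            | zero => intro _; rfl
            | succ t iht =>
              intro ht
              rw [walk, walk, iht (by omega), h t (by omega)]
          simp only [mem_ofPred_eq]
          rw [this s le_rfl]
        · intro ξ ξ' h
          simp only [mem_ofPred_eq]
          rw [h s le_rfl (by omega)]
      · intro y _ y' _ hyy'
        refine Set.disjoint_left.2 ?_
        rintro ξ ⟨h1, _⟩ ⟨h2, _⟩
        exact hyy' (h1.symm.trans h2)
      · intro y _
        refine MeasurableSet.inter ((measurable_walk x s) (measurableSet_singleton y)) ?_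
        exact ((measurable_pi_apply y).comp (measurable_pi_apply s)) (measurableSet_singleton v)
    simp_rw [h1]
    rw [Finset.sum_comm]
    have h2 : ∀ y, ∑ x, stepsLaw G {ξ | walk ξ x s = y} * stepLaw G y {v} = stepLaw G y {v} := by
      intro y
      rw [← Finset.sum_mul, ih y, one_mul]
    simp_rw [h2]
    have h3 : ∀ y, stepLaw G y {v} = if G.Adj y v then (d : ℝ≥0∞)⁻¹ else 0 :=
      fun y => stepLaw_regular G (hd y) hd0 v
    simp_rw [h3]
    rw [← Finset.sum_filter, Finset.sum_const]
    have h4 : (Finset.univ.filter fun y => G.Adj y v).card = d := by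
      rw [← hd v, Set.ncard_eq_toFinset_card']
      congr 1
      ext y
      simp [SimpleGraph.adj_comm]
    rw [h4, nsmul_eq_mul, ENNReal.mul_inv_cancel (by exact_mod_cast hd0) (ENNReal.natCast_ne_top d)]

/-- A walk started from a uniform vertex of a regular graph visits a given vertex by time `k`
with probability at most `(k+1)/|V|`. -/
lemma visit_le (G : SimpleGraph V) {d : ℕ} (hd : ∀ v, (G.neighborSet v).ncard = d) (hd0 : d ≠ 0)
    (k : ℕ) (v : V) :
    ((uniformOn (univ : Set V)).prod (stepsLaw G)) {p | ∃ s ≤ k, walk p.2 p.1 s = v} ≤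
      (k + 1 : ℕ) * (Fintype.card V : ℝ≥0∞)⁻¹ := by
  have e : {p : V × Steps V | ∃ s ≤ k, walk p.2 p.1 s = v} ⊆
      ⋃ s ∈ Finset.range (k + 1), {p : V × Steps V | walk p.2 p.1 s = v} := by
    rintro p ⟨s, hs, hv⟩
    exact mem_iUnion₂.2 ⟨s, by simp; omega, hv⟩
  refine (measure_mono e).trans ((measure_biUnion_finset_le _ _).trans ?_)
  have h1 : ∀ s, ((uniformOn (univ : Set V)).prod (stepsLaw G))
      {p : V × Steps V | walk p.2 p.1 s = v} = (Fintype.card V : ℝ≥0∞)⁻¹ := by
    intro s
    have hms : MeasurableSet {p : V × Steps V | walk p.2 p.1 s = v} :=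
      (measurable_walk' s) (measurableSet_singleton v)
    rw [Measure.prod_apply hms, lintegral_fintype]
    simp_rw [uniformOn_univ_singleton]
    rw [← Finset.sum_mul]
    have := sum_walk G hd hd0 s v
    have h2 : ∀ x : V, (Prod.mk x ⁻¹' {p : V × Steps V | walk p.2 p.1 s = v}) =
        {ξ | walk ξ x s = v} := fun x => rfl
    simp_rw [h2]
    rw [this, one_mul]
  simp_rw [h1]
  rw [Finset.sum_const, Finset.card_range, nsmul_eq_mul]

/-- One more walk increases the covering probability by at most `(k+1)/|V|`. -/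
lemma cover_succ_le [Nonempty V] (G : SimpleGraph V) {d : ℕ}
    (hd : ∀ v, (G.neighborSet v).ncard = d) (hd0 : d ≠ 0) (m k : ℕ) :
    walkersLaw G (m + 1) (coverEvent V (m + 1) k) ≤
      walkersLaw G m (coverEvent V m k) + (k + 1 : ℕ) * (Fintype.card V : ℝ≥0∞)⁻¹ := by
  classical
  set W := (uniformOn (univ : Set V)).prod (stepsLaw G) with hW
  have hmp := measurePreserving_piFinSuccAbove (fun _ : Fin (m + 1) => W) 0
  set e := MeasurableEquiv.piFinSuccAbove (fun _ : Fin (m + 1) => V × Steps V) 0 with he
  set E' : Set ((V × Steps V) × (Fin m → V × Steps V)) := e.symm ⁻¹' (coverEvent V (m + 1) k)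
    with hE'
  have hE'm : MeasurableSet E' := e.symm.measurable (measurableSet_coverEvent (m + 1) k)
  have h1 : walkersLaw G (m + 1) (coverEvent V (m + 1) k) = (W.prod (walkersLaw G m)) E' := by
    have h2 := hmp.measure_preimage hE'm.nullMeasurableSet
    have h3 : e ⁻¹' E' = coverEvent V (m + 1) k := by
      rw [hE', ← preimage_comp]
      simp
    rw [h3] at h2
    exact h2
  rw [h1, Measure.prod_apply_symm hE'm]
  have h4 : ∀ y : Fin m → V × Steps V, W ((fun x => (x, y)) ⁻¹' E') ≤
      (coverEvent V m k).indicator 1 y + (k + 1 : ℕ) * (Fintype.card V : ℝ≥0∞)⁻¹ := by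
    intro y
    by_cases hy : y ∈ coverEvent V m k
    · rw [indicator_of_mem hy]
      exact prob_le_one.trans (by simp)
    · rw [indicator_of_notMem hy, zero_add]
      have hy' : ∃ v, ∀ j, ∀ s ≤ k, walk (y j).2 (y j).1 s ≠ v := by
        simp only [coverEvent, mem_ofPred_eq, not_forall, not_exists, not_and] at hy
        exact hy
      obtain ⟨v, hv⟩ := hy'
      refine le_trans (measure_mono ?_) (visit_le G hd hd0 k v)
      intro x hx
      have hx' : e.symm (x, y) ∈ coverEvent V (m + 1) k := hx
      obtain ⟨j, s, hs, hjs⟩ := hx' v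
      refine Fin.cases (motive := fun j => walk (e.symm (x, y) j).2 (e.symm (x, y) j).1 s = v → _)
        ?_ ?_ j hjs
      · intro h
        exact ⟨s, hs, h⟩
      · intro i h
        exact absurd h (hv i s hs)
  refine (lintegral_mono h4).trans ?_
  rw [lintegral_add_right _ measurable_const, lintegral_indicator_one (measurableSet_coverEvent m k)]
  simp

omit [MeasurableSpace V] [MeasurableSingletonClass V] in
lemma card_le_of_cover {m k : ℕ} {ω : Fin m → V × Steps V} (h : ω ∈ coverEvent V m k) :
    Fintype.card V ≤ m * (k + 1) := by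
  classical
  have h1 : (Finset.univ : Finset V) ⊆ Finset.univ.biUnion (fun j : Fin m =>
      (Finset.range (k + 1)).image (walk (ω j).2 (ω j).1)) := by
    intro v _
    obtain ⟨j, s, hs, hv⟩ := h v
    simp only [Finset.mem_biUnion, Finset.mem_univ, true_and, Finset.mem_image, Finset.mem_range]
    exact ⟨j, s, by omega, hv⟩
  have h2 := Finset.card_le_card h1
  rw [Finset.card_univ] at h2
  refine h2.trans (Finset.card_biUnion_le.trans ?_)
  calc ∑ j : Fin m, ((Finset.range (k + 1)).image (walk (ω j).2 (ω j).1)).card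
      ≤ ∑ j : Fin m, (k + 1) := by
        refine Finset.sum_le_sum fun j _ => ?_
        exact Finset.card_image_le.trans (by simp)
    _ = m * (k + 1) := by simp

lemma exists_cover_big [Nonempty V] (G : SimpleGraph V) (k : ℕ) :
    ∃ m, 1 / 2 < (walkersLaw G m).real (coverEvent V m k) := by
  classical
  set W := (uniformOn (univ : Set V)).prod (stepsLaw G) with hW
  have hsub : ∀ m, (coverEvent V m k)ᶜ ⊆ ⋃ v : V,
      Set.pi univ (fun _ : Fin m => {p : V × Steps V | p.1 = v}ᶜ) := by
    intro m ω hω
    simp only [coverEvent, mem_compl_iff, mem_ofPred_eq, not_forall, not_exists, not_and] at hω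
    obtain ⟨v, hv⟩ := hω
    refine mem_iUnion.2 ⟨v, ?_⟩
    intro j _
    exact hv j 0 (Nat.zero_le _)
  have hmeas : ∀ v, MeasurableSet {p : V × Steps V | p.1 = v} := fun v =>
    measurable_fst (measurableSet_singleton v)
  have hc : ∀ v, W {p : V × Steps V | p.1 = v}ᶜ < 1 := by
    intro v
    rw [prob_compl_eq_one_sub (hmeas v)]
    refine ENNReal.sub_lt_self ENNReal.one_ne_top one_ne_zero ?_
    have : {p : V × Steps V | p.1 = v} = {v} ×ˢ univ := by ext p; simp
    rw [this, hW, Measure.prod_prod, measure_univ, mul_one, uniformOn_univ_singleton]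
    simp
  have hlim : Tendsto (fun m : ℕ => ∑ v : V, (W {p : V × Steps V | p.1 = v}ᶜ) ^ m) atTop (𝓝 0) := by
    have h0 : (0 : ℝ≥0∞) = ∑ v : V, 0 := by simp
    rw [h0]
    exact tendsto_finsetSum _ fun v _ => ENNReal.tendsto_pow_atTop_nhds_zero_of_lt_one (hc v)
  obtain ⟨m, hm⟩ := (hlim.eventually (gt_mem_nhds (show (0 : ℝ≥0∞) < 1 / 2 by norm_num))).exists
  refine ⟨m, ?_⟩
  have h1 : walkersLaw G m (coverEvent V m k)ᶜ < 1 / 2 := by
    refine lt_of_le_of_lt ?_ hm
    refine (measure_mono (hsub m)).trans ((measure_iUnion_fintype_le _ _).trans ?_)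
    refine Finset.sum_le_sum fun v _ => ?_
    unfold walkersLaw
    rw [Measure.pi_pi, Finset.prod_const, Finset.card_univ, Fintype.card_fin]
  have h2 : (walkersLaw G m).real (coverEvent V m k)ᶜ < 1 / 2 := by
    rw [measureReal_def]
    have := (ENNReal.toReal_lt_toReal (measure_ne_top _ _) (by norm_num)).2 h1
    simpa using this
  rw [probReal_compl_eq_one_sub (measurableSet_coverEvent m k)] at h2
  linarith

/-- Discrete intermediate value: a number of walks for which `P(D ≤ k)` is within
`(k+1)/|V|` of `1/2`. -/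
lemma exists_cover_half [Nonempty V] (G : SimpleGraph V) {d : ℕ}
    (hd : ∀ v, (G.neighborSet v).ncard = d) (hd0 : d ≠ 0) (k : ℕ) :
    ∃ m, Fintype.card V ≤ m * (k + 1) ∧
      1 / 2 ≤ (walkersLaw G m).real (coverEvent V m k) ∧
      (walkersLaw G m).real (coverEvent V m k) ≤ 1 / 2 + (k + 1) / Fintype.card V := by
  classical
  have hex : ∃ m, 1 / 2 ≤ (walkersLaw G m).real (coverEvent V m k) := by
    obtain ⟨m, hm⟩ := exists_cover_big G k
    exact ⟨m, hm.le⟩
  set m := Nat.find hex with hm
  have hm1 : 1 / 2 ≤ (walkersLaw G m).real (coverEvent V m k) := Nat.find_spec hex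
  have hne : (coverEvent V m k).Nonempty := by
    by_contra hc
    rw [not_nonempty_iff_eq_empty] at hc
    rw [hc] at hm1
    simp at hm1
    norm_num at hm1
  obtain ⟨ω, hω⟩ := hne
  have hcard := card_le_of_cover hω
  have hmpos : m ≠ 0 := by
    intro h0
    rw [h0, zero_mul] at hcard
    have := Fintype.card_pos (α := V)
    omega
  obtain ⟨m', hm'⟩ := Nat.exists_eq_succ_of_ne_zero hmpos
  have hlt : (walkersLaw G m').real (coverEvent V m' k) < 1 / 2 := by
    have := Nat.find_min hex (m := m') (by omega)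
    exact not_le.1 this
  refine ⟨m, hcard, hm1, ?_⟩
  have h1 := cover_succ_le G hd hd0 m' k
  have h2 : (walkersLaw G (m' + 1)).real (coverEvent V (m' + 1) k) ≤
      (walkersLaw G m').real (coverEvent V m' k) + (k + 1) / Fintype.card V := by
    have hfin : ((k + 1 : ℕ) : ℝ≥0∞) * (Fintype.card V : ℝ≥0∞)⁻¹ ≠ ∞ := by
      refine ENNReal.mul_ne_top (ENNReal.natCast_ne_top _) ?_
      rw [ENNReal.inv_ne_top]
      have := Fintype.card_pos (α := V)
      exact_mod_cast this.ne'
    have h3 := ENNReal.toReal_mono (ENNReal.add_ne_top.2 ⟨measure_ne_top _ _, hfin⟩) h1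
    rw [ENNReal.toReal_add (measure_ne_top _ _) hfin, ENNReal.toReal_mul, ENNReal.toReal_inv,
      ENNReal.toReal_natCast, ENNReal.toReal_natCast] at h3
    rw [measureReal_def, measureReal_def, div_eq_mul_inv]
    push_cast at h3
    exact h3
  have h4 : m = m' + 1 := hm'
  rw [h4]
  linarith

end H411Frog
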