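import Mathlib

set_option autoImplicit false

namespace Pool.Agent.H411R3.Ladder

/-- CRT for a family of linear congruences with pairwise coprime moduli. -/
lemma crt_family (n : ℕ) (h α β : ℕ → ℤ) (M : ℤ)
    (hM : ∀ i < n, IsCoprime (h i) M)
    (hpair : ∀ i j, i < j → j < n → IsCoprime (h i) (h j))
    (hβ : ∀ i < n, IsCoprime (h i) (β i)) :
    ∃ δ : ℤ, M ∣ δ ∧ ∀ i < n, h i ∣ α i + β i * δ := by
  induction n with
  | zero => exact ⟨0, dvd_zero _, fun i hi => absurd hi (Nat.not_lt_zero i)⟩
  | succ n ih =>
    obtain ⟨δ, h1, h2⟩ := ih (fun i hi => hM i (by omega)) (fun i j hij hj => hpair i j hij (by omega))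
      (fun i hi => hβ i (by omega))
    set P : ℤ := M * ∏ i ∈ Finset.range n, h i with hP
    have hcop : IsCoprime (h n) (β n * P) := by
      apply IsCoprime.mul_right (hβ n (by omega))
      apply IsCoprime.mul_right (hM n (by omega))
      apply IsCoprime.prod_right
      intro i hi
      exact (hpair i n (Finset.mem_range.mp hi) (by omega)).symm
    obtain ⟨u, v, huv⟩ := hcop
    refine ⟨δ + P * (-(α n + β n * δ) * v), ?_, ?_⟩
    · apply dvd_add h1
      apply Dvd.dvd.mul_right
      exact Dvd.intro _ rfl
    · intro i hi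
      rcases Nat.lt_succ_iff_lt_or_eq.mp hi with hi' | hi'
      · have e : α i + β i * (δ + P * (-(α n + β n * δ) * v))
            = (α i + β i * δ) + P * (β i * (-(α n + β n * δ) * v)) := by ring
        rw [e]
        apply dvd_add (h2 i hi')
        apply Dvd.dvd.mul_right
        rw [hP]
        apply Dvd.dvd.mul_left
        exact Finset.dvd_prod_of_mem _ (Finset.mem_range.mpr hi')
      · subst hi'
        refine ⟨(α i + β i * δ) * u, ?_⟩
        linear_combination (-(α i + β i * δ)) * huv

lemma crt_family_large (n : ℕ) (h α β : ℕ → ℤ) (M W : ℤ) (hM0 : 0 < M)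
    (hpos : ∀ i < n, 0 < h i)
    (hM : ∀ i < n, IsCoprime (h i) M)
    (hpair : ∀ i j, i < j → j < n → IsCoprime (h i) (h j))
    (hβ : ∀ i < n, IsCoprime (h i) (β i)) :
    ∃ δ : ℤ, W ≤ δ ∧ 0 ≤ δ ∧ M ∣ δ ∧ ∀ i < n, h i ∣ α i + β i * δ := by
  obtain ⟨δ, h1, h2⟩ := crt_family n h α β M hM hpair hβ
  set P : ℤ := M * ∏ i ∈ Finset.range n, h i with hP
  have hPpos : 0 < P := by
    apply mul_pos hM0
    exact Finset.prod_pos (fun i hi => hpos i (Finset.mem_range.mp hi))
  set K : ℤ := |W| + |δ| with hK
  have hK0 : 0 ≤ K := by positivity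
  have hPK : K ≤ P * K := by nlinarith
  have hd : -|δ| ≤ δ := neg_abs_le δ
  have hW : W ≤ |W| := le_abs_self W
  refine ⟨δ + P * K, by linarith, ?_, ?_, ?_⟩
  · have : 0 ≤ |W| := abs_nonneg W
    linarith
  · apply dvd_add h1
    rw [hP, mul_assoc]
    exact Dvd.intro _ rfl
  · intro i hi
    have e : α i + β i * (δ + P * K) = (α i + β i * δ) + P * (β i * K) := by ring
    rw [e]
    apply dvd_add (h2 i hi)
    apply Dvd.dvd.mul_right
    rw [hP]
    apply Dvd.dvd.mul_left
    exact Finset.dvd_prod_of_mem _ (Finset.mem_range.mpr hi)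

/-- the difference functional -/
def g (a b : ℤ) (u : ℕ → ℤ) (i j : ℕ) : ℤ := a ^ (j - i) * u j - b ^ (j - i) * u i

structure Good (a b Y : ℤ) (k : ℕ) (u : ℕ → ℤ) : Prop where
  pos : ∀ i < k, 0 < u i
  cop : ∀ i < k, IsCoprime (u i) (a * b)
  gpos : ∀ i j, i < j → j < k → 0 < g a b u i j
  gdvd : ∀ i j, i < j → j < k → g a b u i j ∣ u i
  glarge : ∀ i j, i < j → j < k → Y * g a b u i j ≤ u i

theorem exists_good (a b : ℤ) (ha : 0 < a) (hb : 0 < b) (hab : IsCoprime a b) :
    ∀ k : ℕ, ∀ Y : ℤ, ∃ u : ℕ → ℤ, Good a b Y k u := by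
  intro k
  induction k with
  | zero =>
    intro Y
    exact ⟨fun _ => 1, ⟨fun i hi => absurd hi (Nat.not_lt_zero i), fun i hi => absurd hi (Nat.not_lt_zero i),
      fun i j _ hj => absurd hj (Nat.not_lt_zero j), fun i j _ hj => absurd hj (Nat.not_lt_zero j),
      fun i j _ hj => absurd hj (Nat.not_lt_zero j)⟩⟩
  | succ k ih =>
    intro Y
    obtain ⟨u, hu⟩ := ih 0
    have hgcop : ∀ i j, i < j → j < k → IsCoprime (g a b u i j) (a * b) := by
      intro i j hij hj
      have c1 := hu.cop i (by omega)
      have c2 := hu.cop j hj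
      have c1a : IsCoprime (u i) a := IsCoprime.of_mul_right_left c1
      have c2b : IsCoprime (u j) b := IsCoprime.of_mul_right_right c2
      unfold g
      obtain ⟨m, hm⟩ : ∃ m, j - i = m + 1 := ⟨j - i - 1, by omega⟩
      rw [hm]
      apply IsCoprime.mul_right
      · have h1 : IsCoprime (-(b ^ (m + 1) * u i)) a := by
          apply IsCoprime.neg_left
          apply IsCoprime.mul_left
          · exact hab.symm.pow_left
          · exact c1a
        have e : a ^ (m + 1) * u j - b ^ (m + 1) * u i = -(b ^ (m + 1) * u i) + a * (a ^ m * u j) := by ring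
        rw [e]
        exact h1.add_mul_left_left _
      · have h1 : IsCoprime (a ^ (m + 1) * u j) b := by
          apply IsCoprime.mul_left
          · exact hab.pow_left
          · exact c2b
        have e : a ^ (m + 1) * u j - b ^ (m + 1) * u i = (a ^ (m + 1) * u j) + b * (-(b ^ m * u i)) := by ring
        rw [e]
        exact h1.add_mul_left_left _
    set G : ℤ := ∏ i ∈ Finset.range k, ∏ j ∈ Finset.range k, (if i < j then g a b u i j else 1) with hG
    have hGpos : 0 < G := by
      apply Finset.prod_pos
      intro i _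
      apply Finset.prod_pos
      intro j hj
      split_ifs with hij
      · exact hu.gpos i j hij (Finset.mem_range.mp hj)
      · norm_num
    have hGcop : IsCoprime G (a * b) := by
      apply IsCoprime.prod_left
      intro i _
      apply IsCoprime.prod_left
      intro j hj
      split_ifs with hij
      · exact hgcop i j hij (Finset.mem_range.mp hj)
      · exact isCoprime_one_left
    have hGdvd : ∀ i j, i < j → j < k → g a b u i j ∣ G := by
      intro i j hij hj
      have h1 : (∏ j ∈ Finset.range k, (if i < j then g a b u i j else 1)) ∣ G := by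
        exact Finset.dvd_prod_of_mem (fun i => ∏ j ∈ Finset.range k, (if i < j then g a b u i j else 1))
          (Finset.mem_range.mpr (by omega : i < k))
      have h2 : (if i < j then g a b u i j else 1) ∣ (∏ j ∈ Finset.range k, (if i < j then g a b u i j else 1)) :=
        Finset.dvd_prod_of_mem (fun j => (if i < j then g a b u i j else 1)) (Finset.mem_range.mpr hj)
      rw [if_pos hij] at h2
      exact h2.trans h1
    have hGa : IsCoprime G a := IsCoprime.of_mul_right_left hGcop
    have hGb : IsCoprime G b := IsCoprime.of_mul_right_right hGcop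
    -- v0
    set K : ℤ := ∑ i ∈ Finset.range k, b ^ (k - i) * G * u i with hK
    have hterm : ∀ i < k, 0 ≤ b ^ (k - i) * G * u i := by
      intro i hi
      have := hu.pos i hi
      positivity
    have hKle : ∀ i < k, b ^ (k - i) * G * u i ≤ K := by
      intro i hi
      exact Finset.single_le_sum (f := fun i => b ^ (k - i) * G * u i)
        (fun i hi => hterm i (Finset.mem_range.mp hi)) (Finset.mem_range.mpr hi)
    have hK0 : 0 ≤ K := Finset.sum_nonneg (fun i hi => hterm i (Finset.mem_range.mp hi))
    set v0 : ℤ := 1 + (G * a * b) * K with hv0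
    have hGab : 0 < G * a * b := by positivity
    have hv0K : 1 + K ≤ v0 := by rw [hv0]; nlinarith
    have hv0cop : IsCoprime v0 (G * a * b) := by
      rw [hv0]
      exact isCoprime_one_left.add_mul_left_left _
    have hv0G : IsCoprime v0 G := IsCoprime.of_mul_right_left (IsCoprime.of_mul_right_left hv0cop)
    have hv0a : IsCoprime v0 a := IsCoprime.of_mul_right_right (IsCoprime.of_mul_right_left hv0cop)
    have hv0b : IsCoprime v0 b := IsCoprime.of_mul_right_right hv0cop
    set h : ℕ → ℤ := fun i => a ^ (k - i) * v0 - b ^ (k - i) * G * u i with hh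
    have hhpos : ∀ i < k, 0 < h i := by
      intro i hi
      have h1 : 1 ≤ a ^ (k - i) := one_le_pow₀ (by omega)
      have h2 := hKle i hi
      have h3 : v0 ≤ a ^ (k - i) * v0 := by nlinarith
      simp only [hh]
      linarith
    have hcopa : ∀ i < k, IsCoprime (h i) a := by
      intro i hi
      obtain ⟨m, hm⟩ : ∃ m, k - i = m + 1 := ⟨k - i - 1, by omega⟩
      simp only [hh, hm]
      have c1 : IsCoprime (-(b ^ (m + 1) * G * u i)) a := by
        apply IsCoprime.neg_left
        apply IsCoprime.mul_left
        · apply IsCoprime.mul_left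
          · exact hab.symm.pow_left
          · exact hGa
        · exact IsCoprime.of_mul_right_left (hu.cop i hi)
      have e : a ^ (m + 1) * v0 - b ^ (m + 1) * G * u i = -(b ^ (m + 1) * G * u i) + a * (a ^ m * v0) := by ring
      rw [e]
      exact c1.add_mul_left_left _
    have hcopb : ∀ i < k, IsCoprime (h i) b := by
      intro i hi
      obtain ⟨m, hm⟩ : ∃ m, k - i = m + 1 := ⟨k - i - 1, by omega⟩
      simp only [hh, hm]
      have c1 : IsCoprime (a ^ (m + 1) * v0) b := IsCoprime.mul_left hab.pow_left hv0b
      have e : a ^ (m + 1) * v0 - b ^ (m + 1) * G * u i = (a ^ (m + 1) * v0) + b * (-(b ^ m * G * u i)) := by ring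
      rw [e]
      exact c1.add_mul_left_left _
    have hcopG : ∀ i < k, IsCoprime (h i) G := by
      intro i hi
      simp only [hh]
      have c1 : IsCoprime (a ^ (k - i) * v0) G := IsCoprime.mul_left hGa.symm.pow_left hv0G
      have e : a ^ (k - i) * v0 - b ^ (k - i) * G * u i = (a ^ (k - i) * v0) + G * (-(b ^ (k - i) * u i)) := by ring
      rw [e]
      exact c1.add_mul_left_left _
    have hpair : ∀ i j, i < j → j < k → IsCoprime (h i) (h j) := by
      intro i j hij hj
      have e : a ^ (j - i) * h j = h i + -(G * b ^ (k - j) * g a b u i j) := by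
        simp only [hh, g]
        have e1 : k - i = (j - i) + (k - j) := by omega
        rw [e1, pow_add, pow_add]
        ring
      have c1 : IsCoprime (h i) (-(G * b ^ (k - j) * g a b u i j)) := by
        apply IsCoprime.neg_right
        apply IsCoprime.mul_right
        · exact IsCoprime.mul_right (hcopG i (by omega)) (hcopb i (by omega)).pow_right
        · exact (hcopG i (by omega)).of_isCoprime_of_dvd_right (hGdvd i j hij hj)
      have c2 : IsCoprime (h i) (a ^ (j - i) * h j) := by
        rw [e, add_comm]
        exact (IsCoprime.add_mul_left_right_iff (x := h i) (y := -(G * b ^ (k - j) * g a b u i j)) (z := 1)).mpr c1 |> fun h => by simpa using h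
      exact IsCoprime.of_mul_right_right c2
    -- CRT
    set S : ℤ := (∑ i ∈ Finset.range k, ∑ j ∈ Finset.range k, |G * g a b u i j|) + ∑ i ∈ Finset.range k, |h i| with hS
    obtain ⟨δ, hδW, hδ0, hδM, hδ⟩ := crt_family_large k h (fun i => G * u i) (fun i => a ^ (k - i) * b ^ i)
      (G * G * (a * b)) (|Y| * S) (by positivity) hhpos
      (fun i hi => IsCoprime.mul_right (IsCoprime.mul_right (hcopG i hi) (hcopG i hi))
        (IsCoprime.mul_right (hcopa i hi) (hcopb i hi)))
      hpair
      (fun i hi => IsCoprime.mul_right (hcopa i hi).pow_right (hcopb i hi).pow_right)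
    have hδGG : G * G ∣ δ := dvd_trans (Dvd.intro _ rfl) hδM
    have hδab : a * b ∣ δ := dvd_trans (Dvd.intro_left _ rfl) hδM
    set u' : ℕ → ℤ := fun i => if i < k then G * u i + a ^ (k - i) * b ^ i * δ else v0 + b ^ k * δ with hu'
    have hu'i : ∀ i < k, u' i = G * u i + a ^ (k - i) * b ^ i * δ := by
      intro i hi; simp only [hu', if_pos hi]
    have hu'k : u' k = v0 + b ^ k * δ := by simp [hu']
    have hg1 : ∀ i j, i < j → j < k → g a b u' i j = G * g a b u i j := by
      intro i j hij hj
      unfold g
      rw [hu'i i (by omega), hu'i j hj]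
      have e1 : k - i = (j - i) + (k - j) := by omega
      have e2 : b ^ j = b ^ (j - i) * b ^ i := by rw [← pow_add]; congr 1; omega
      rw [e1, pow_add, e2]
      ring
    have hg2 : ∀ i < k, g a b u' i k = h i := by
      intro i hi
      unfold g
      rw [hu'i i hi, hu'k]
      simp only [hh]
      have e2 : b ^ k = b ^ (k - i) * b ^ i := by rw [← pow_add]; congr 1; omega
      rw [e2]
      ring
    have hge : ∀ i < k, δ ≤ u' i := by
      intro i hi
      rw [hu'i i hi]
      have h1 : 1 ≤ a ^ (k - i) := one_le_pow₀ (by omega)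
      have h2 : 1 ≤ b ^ i := one_le_pow₀ (by omega)
      have h3 : 1 ≤ a ^ (k - i) * b ^ i := by nlinarith
      have h4 : 0 < G * u i := mul_pos hGpos (hu.pos i hi)
      nlinarith
    have hYS : ∀ x : ℤ, 0 < x → x ≤ S → Y * x ≤ δ := by
      intro x hx hxS
      have h1 : Y * x ≤ |Y| * x := mul_le_mul_of_nonneg_right (le_abs_self Y) hx.le
      have h2 : |Y| * x ≤ |Y| * S := mul_le_mul_of_nonneg_left hxS (abs_nonneg Y)
      linarith
    have hS1 : ∀ i j, i < j → j < k → G * g a b u i j ≤ S := by
      intro i j hij hj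
      have h1 : |G * g a b u i j| ≤ ∑ j ∈ Finset.range k, |G * g a b u i j| :=
        Finset.single_le_sum (f := fun j => |G * g a b u i j|) (fun _ _ => abs_nonneg _) (Finset.mem_range.mpr hj)
      have h2 : (∑ j ∈ Finset.range k, |G * g a b u i j|) ≤ ∑ i ∈ Finset.range k, ∑ j ∈ Finset.range k, |G * g a b u i j| :=
        Finset.single_le_sum (f := fun i => ∑ j ∈ Finset.range k, |G * g a b u i j|)
          (fun _ _ => Finset.sum_nonneg (fun _ _ => abs_nonneg _)) (Finset.mem_range.mpr (by omega : i < k))
      have h3 : 0 ≤ ∑ i ∈ Finset.range k, |h i| := Finset.sum_nonneg (fun _ _ => abs_nonneg _)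
      have h4 := le_abs_self (G * g a b u i j)
      linarith
    have hS2 : ∀ i < k, h i ≤ S := by
      intro i hi
      have h1 : |h i| ≤ ∑ i ∈ Finset.range k, |h i| :=
        Finset.single_le_sum (f := fun i => |h i|) (fun _ _ => abs_nonneg _) (Finset.mem_range.mpr hi)
      have h3 : 0 ≤ ∑ i ∈ Finset.range k, ∑ j ∈ Finset.range k, |G * g a b u i j| :=
        Finset.sum_nonneg (fun _ _ => Finset.sum_nonneg (fun _ _ => abs_nonneg _))
      have h4 := le_abs_self (h i)
      linarith
    refine ⟨u', ⟨?_, ?_, ?_, ?_, ?_⟩⟩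
    · intro i hi
      rcases Nat.lt_succ_iff_lt_or_eq.mp hi with hi' | hi'
      · rw [hu'i i hi']
        have := hu.pos i hi'
        positivity
      · rw [hi', hu'k]
        have : 0 < v0 := by linarith
        positivity
    · intro i hi
      rcases Nat.lt_succ_iff_lt_or_eq.mp hi with hi' | hi'
      · rw [hu'i i hi']
        obtain ⟨t, ht⟩ := hδab
        have c1 : IsCoprime (G * u i) (a * b) := IsCoprime.mul_left hGcop (hu.cop i hi')
        have e : G * u i + a ^ (k - i) * b ^ i * δ = G * u i + (a * b) * (a ^ (k - i) * b ^ i * t) := by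
          rw [ht]; ring
        rw [e]
        exact c1.add_mul_left_left _
      · rw [hi', hu'k]
        obtain ⟨t, ht⟩ := hδab
        have c1 : IsCoprime v0 (a * b) := IsCoprime.mul_right hv0a hv0b
        have e : v0 + b ^ k * δ = v0 + (a * b) * (b ^ k * t) := by rw [ht]; ring
        rw [e]
        exact c1.add_mul_left_left _
    · intro i j hij hj
      rcases Nat.lt_succ_iff_lt_or_eq.mp hj with hj' | hj'
      · rw [hg1 i j hij hj']
        exact mul_pos hGpos (hu.gpos i j hij hj')
      · rw [hj', hg2 i (by omega)]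
        exact hhpos i (by omega)
    · intro i j hij hj
      rcases Nat.lt_succ_iff_lt_or_eq.mp hj with hj' | hj'
      · rw [hg1 i j hij hj', hu'i i (by omega)]
        apply dvd_add
        · exact mul_dvd_mul_left G (hu.gdvd i j hij hj')
        · apply Dvd.dvd.mul_left
          exact dvd_trans (mul_dvd_mul_left G (hGdvd i j hij hj')) hδGG
      · rw [hj', hg2 i (by omega), hu'i i (by omega)]
        exact hδ i (by omega)
    · intro i j hij hj
      rcases Nat.lt_succ_iff_lt_or_eq.mp hj with hj' | hj'
      · rw [hg1 i j hij hj']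
        exact (hYS _ (mul_pos hGpos (hu.gpos i j hij hj')) (hS1 i j hij hj')).trans (hge i (by omega))
      · rw [hj', hg2 i (by omega)]
        exact (hYS _ (hhpos i (by omega)) (hS2 i (by omega))).trans (hge i (by omega))

end Pool.Agent.H411R3.Ladder
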