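import Mathlib

set_option autoImplicit false

namespace Pool.Agent.H411R3.Legen

lemma sqrt_pred_bound {m : ℕ} (hm : 0 < m) :
    (Nat.sqrt (m - 1)) ^ 2 < m ∧ m ≤ (Nat.sqrt (m - 1) + 1) ^ 2 := by
  constructor
  · have := Nat.sqrt_le' (m - 1)
    omega
  · have := Nat.lt_succ_sqrt' (m - 1)
    simp only [Nat.succ_eq_add_one] at this
    omega

lemma bound_k {k M V : ℤ} (hM : 0 < M) {lo hi : ℤ} (hk : V = M * k) (h1 : lo * M < V)
    (h2 : V < hi * M) : lo < k ∧ k < hi := by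
  rw [hk, mul_comm M k] at h1 h2
  exact ⟨lt_of_mul_lt_mul_right h1 hM.le, lt_of_mul_lt_mul_right h2 hM.le⟩

lemma case_lemma {d D p x y z V k : ℤ} (hd : d = D ∨ d = -D) (hx2 : x ^ 2 < D * p)
    (hy2 : y ^ 2 < p) (hz2 : z ^ 2 < D) (hp : 0 < p) (hD : 0 < D)
    (hV : V = x ^ 2 + d * y ^ 2 - p * z ^ 2) (hk : V = D * p * k) : V = 0 ∨ V = d * p := by
  have hM : 0 < D * p := mul_pos hD hp
  have a1 : D * y ^ 2 < D * p := mul_lt_mul_of_pos_left hy2 hD
  have a2 : p * z ^ 2 < D * p := by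
    have := mul_lt_mul_of_pos_left hz2 hp
    linarith [mul_comm p D]
  have a3 : 0 ≤ x ^ 2 := sq_nonneg x
  have a4 : 0 ≤ D * y ^ 2 := mul_nonneg hD.le (sq_nonneg y)
  have a5 : 0 ≤ p * z ^ 2 := mul_nonneg hp.le (sq_nonneg z)
  rcases hd with hd | hd
  · subst hd
    obtain ⟨b1, b2⟩ := bound_k (lo := -1) (hi := 2) hM hk (by linarith) (by linarith)
    have : k = 0 ∨ k = 1 := by omega
    rcases this with h | h
    · left; rw [hk, h]; ring
    · right; rw [hk, h]; ring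
  · have e : d * y ^ 2 = -(D * y ^ 2) := by rw [hd]; ring
    rw [e] at hV
    obtain ⟨b1, b2⟩ := bound_k (lo := -2) (hi := 1) hM hk (by linarith) (by linarith)
    have : k = 0 ∨ k = -1 := by omega
    rcases this with h | h
    · left; rw [hk, h]; ring
    · right; rw [hk, h, hd]; ring

/-- Legendre-type pigeonhole: `X^2 + d Y^2 = p w^2` is solvable with `w ≠ 0`. -/
theorem exists_rep {d : ℤ} (hd : d ≠ 0) (hns : ∀ t : ℤ, t ^ 2 ≠ -d) {p : ℕ} (hp : p.Prime)
    (hmod : (p : ℤ) ≡ 1 [ZMOD (d.natAbs : ℤ)]) (hsq : IsSquare ((-d : ℤ) : ZMod p)) :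
    ∃ X Y w : ℤ, w ≠ 0 ∧ X ^ 2 + d * Y ^ 2 = p * w ^ 2 := by
  have : Fact p.Prime := ⟨hp⟩
  set D : ℕ := d.natAbs with hD
  have hDpos : 0 < D := Int.natAbs_pos.mpr hd
  have : NeZero D := ⟨hDpos.ne'⟩
  obtain ⟨s, hs⟩ := hsq
  set A := Nat.sqrt (D * p - 1) with hA
  set B := Nat.sqrt (p - 1) with hB
  set C := Nat.sqrt (D - 1) with hC
  obtain ⟨hA1, hA2⟩ := sqrt_pred_bound (Nat.mul_pos hDpos hp.pos)
  obtain ⟨hB1, hB2⟩ := sqrt_pred_bound hp.pos
  obtain ⟨hC1, hC2⟩ := sqrt_pred_bound hDpos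
  rw [← hA] at hA1 hA2
  rw [← hB] at hB1 hB2
  rw [← hC] at hC1 hC2
  have hB3 : p < (B + 1) ^ 2 := by
    refine lt_of_le_of_ne hB2 ?_
    intro h
    have := hp.prime.irreducible.not_isSquare
    exact this ⟨B + 1, by rw [h]; ring⟩
  -- counting
  have hcount : p * D < (A + 1) * (B + 1) * (C + 1) := by
    have h1 : (p * D) ^ 2 < ((A + 1) * (B + 1) * (C + 1)) ^ 2 := by
      calc (p * D) ^ 2 = (D * p) * (p * D) := by ring
        _ < (D * p) * ((B + 1) ^ 2 * D) := by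
            apply Nat.mul_lt_mul_of_pos_left
            · exact Nat.mul_lt_mul_of_pos_right hB3 hDpos
            · exact Nat.mul_pos hDpos hp.pos
        _ ≤ (A + 1) ^ 2 * ((B + 1) ^ 2 * (C + 1) ^ 2) := by
            apply Nat.mul_le_mul hA2
            exact Nat.mul_le_mul_left _ hC2
        _ = _ := by ring
    exact lt_of_pow_lt_pow_left₀ 2 (by positivity) h1
  let f : Fin (A + 1) × Fin (B + 1) × Fin (C + 1) → ZMod p × ZMod D :=
    fun t => (((t.1 : ℕ) : ZMod p) - s * ((t.2.1 : ℕ) : ZMod p), ((t.1 : ℕ) : ZMod D) - ((t.2.2 : ℕ) : ZMod D))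
  obtain ⟨t, t', hne, heq⟩ := Fintype.exists_ne_map_eq_of_card_lt f (by
    simp only [Fintype.card_prod, ZMod.card, Fintype.card_fin]
    calc p * D < (A + 1) * (B + 1) * (C + 1) := hcount
      _ = _ := by ring)
  obtain ⟨x1, y1, z1⟩ := t
  obtain ⟨x2, y2, z2⟩ := t'
  simp only [f, Prod.mk.injEq] at heq
  obtain ⟨he1, he2⟩ := heq
  set x : ℤ := (x1 : ℕ) - (x2 : ℕ) with hx
  set y : ℤ := (y1 : ℕ) - (y2 : ℕ) with hy
  set z : ℤ := (z1 : ℕ) - (z2 : ℕ) with hz
  have hxp : (x : ZMod p) = s * (y : ZMod p) := by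
    rw [hx, hy]; push_cast
    linear_combination he1
  have hxD : (x : ZMod D) = (z : ZMod D) := by
    rw [hx, hz]; push_cast
    linear_combination he2
  have hbound : ∀ (n : ℕ) (u v : Fin (n + 1)) (m : ℕ), n ^ 2 < m →
      (((u : ℕ) : ℤ) - ((v : ℕ) : ℤ)) ^ 2 < m := by
    intro n u v m hm
    have h1 : |((u : ℕ) : ℤ) - ((v : ℕ) : ℤ)| ≤ n := by
      rw [abs_le]
      have := u.2
      have := v.2
      constructor <;> omega
    have h2 : (((u : ℕ) : ℤ) - ((v : ℕ) : ℤ)) ^ 2 ≤ (n : ℤ) ^ 2 := by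
      rw [← sq_abs]
      exact pow_le_pow_left₀ (abs_nonneg _) h1 2
    have h3 : ((n : ℤ)) ^ 2 < m := by exact_mod_cast hm
    linarith
  have hx2 : x ^ 2 < (D * p : ℕ) := hbound A x1 x2 _ hA1
  have hy2 : y ^ 2 < (p : ℕ) := hbound B y1 y2 _ hB1
  have hz2 : z ^ 2 < (D : ℕ) := hbound C z1 z2 _ hC1
  push_cast at hx2
  -- divisibility
  set V : ℤ := x ^ 2 + d * y ^ 2 - p * z ^ 2 with hV
  have hVp : (p : ℤ) ∣ V := by
    rw [← ZMod.intCast_zmod_eq_zero_iff_dvd V p] 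
    rw [hV]; push_cast
    rw [hxp]
    have h1 : (s * s : ZMod p) = -(d : ZMod p) := by rw [← hs]; push_cast; ring
    have h2 : ((p : ℕ) : ZMod p) = 0 := ZMod.natCast_self p
    linear_combination ((y : ZMod p) ^ 2) * h1 - ((z : ZMod p) ^ 2) * h2
  have hdD : ((d : ℤ) : ZMod D) = 0 := by
    rw [ZMod.intCast_zmod_eq_zero_iff_dvd]
    exact Int.natAbs_dvd.mpr dvd_rfl
  have hpD : ((p : ℕ) : ZMod D) = 1 := by
    have := (ZMod.intCast_eq_intCast_iff (p : ℤ) 1 D).mpr hmod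
    simpa using this
  have hVD : (D : ℤ) ∣ V := by
    rw [← ZMod.intCast_zmod_eq_zero_iff_dvd V D]
    rw [hV]; push_cast
    rw [hxD, hdD, hpD]
    ring
  have hcop : IsCoprime (D : ℤ) (p : ℤ) := by
    obtain ⟨k, hk⟩ := hmod.dvd
    -- 1 - p = D * k
    exact ⟨k, 1, by linarith⟩
  obtain ⟨k, hk⟩ := hcop.mul_dvd hVD hVp
  have hdcase : d = (D : ℤ) ∨ d = -(D : ℤ) := by rw [hD]; omega
  have hpz : (0 : ℤ) < p := by exact_mod_cast hp.pos
  have hDz : (0 : ℤ) < D := by exact_mod_cast hDpos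
  have hcase : V = 0 ∨ V = d * p :=
    case_lemma hdcase hx2 hy2 hz2 hpz hDz hV hk
  rcases hcase with h0 | h1
  · -- x^2 + d y^2 = p z^2
    refine ⟨x, y, z, ?_, by linarith⟩
    intro hz0
    have hxy : x ^ 2 + d * y ^ 2 = 0 := by rw [hz0] at hV; rw [h0] at hV; linarith
    have hy0 : y = 0 := by
      by_contra hy0
      -- y^2 ∣ x^2
      have hdvd : y ^ 2 ∣ x ^ 2 := ⟨-d, by linarith⟩
      have hdvd' : y ∣ x := (Int.pow_dvd_pow_iff (by norm_num)).mp hdvd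
      obtain ⟨t, ht⟩ := hdvd'
      apply hns t
      have : y ^ 2 * (t ^ 2 + d) = 0 := by rw [ht] at hxy; linarith [hxy, mul_pow y t 2]
      rcases mul_eq_zero.mp this with h | h
      · exact absurd (pow_eq_zero_iff (by norm_num) |>.mp h) hy0
      · linarith
    have hx0 : x = 0 := by
      rw [hy0] at hxy
      have : x ^ 2 = 0 := by linarith
      exact pow_eq_zero_iff (by norm_num) |>.mp this
    apply hne
    have e1 : x1 = x2 := by apply Fin.ext; omega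
    have e2 : y1 = y2 := by apply Fin.ext; omega
    have e3 : z1 = z2 := by apply Fin.ext; omega
    rw [e1, e2, e3]
  · refine ⟨x * z + d * y, y * z - x, z ^ 2 + d, ?_, ?_⟩
    · intro h
      exact hns z (by linarith)
    · have : x ^ 2 + d * y ^ 2 = p * (z ^ 2 + d) := by linarith
      calc (x * z + d * y) ^ 2 + d * (y * z - x) ^ 2 = (x ^ 2 + d * y ^ 2) * (z ^ 2 + d) := by ring
        _ = _ := by rw [this]; ring

/-- A prime `p ≡ 1 mod 4|d|` with `-d` a square mod `p`. -/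
theorem exists_prime {d : ℤ} (hd : d ≠ 0) :
    ∃ p : ℕ, p.Prime ∧ (p : ℤ) ≡ 1 [ZMOD (d.natAbs : ℤ)] ∧ IsSquare ((-d : ℤ) : ZMod p) := by
  have hD : 0 < d.natAbs := Int.natAbs_pos.mpr hd
  obtain ⟨p, hp, hgt, hmod⟩ := Nat.exists_prime_gt_modEq_one (k := 4 * d.natAbs) (4 * d.natAbs) (by omega)
  have : Fact p.Prime := ⟨hp⟩
  refine ⟨p, hp, ?_, ?_⟩
  · have h1 : p ≡ 1 [MOD d.natAbs] := hmod.of_mul_left 4
    have := (Int.natCast_modEq_iff (a := p) (b := 1) (n := d.natAbs)).mpr h1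
    simpa using this
  · have hodd : Odd p := by
      have h1 : p ≡ 1 [MOD 4] := hmod.of_mul_right d.natAbs
      rw [Nat.odd_iff]
      have := h1
      unfold Nat.ModEq at this
      omega
    have hj : jacobiSym (-d) p = 1 := by
      rw [jacobiSym.mod_right (-d) hodd, Int.natAbs_neg]
      have : p % (4 * d.natAbs) = 1 := by
        rw [hmod]
        exact Nat.mod_eq_of_lt (by omega)
      rw [this, jacobiSym.one_right]
    have hl : legendreSym p (-d) = 1 := by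
      rw [jacobiSym.legendreSym.to_jacobiSym]; exact hj
    have hne : (((-d : ℤ)) : ZMod p) ≠ 0 := by
      intro h0
      have := (legendreSym.eq_zero_iff p (-d)).mpr h0
      rw [this] at hl
      exact absurd hl (by norm_num)
    exact (legendreSym.eq_one_iff p hne).mp hl

end Pool.Agent.H411R3.Legen
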