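import Mathlib

set_option autoImplicit false

namespace Pool.Agent.H411R3.Liou

open ArithmeticFunction

/-- Liouville sign of an integer via its absolute value. -/
def lam (m : ℤ) : ℤ := (-1) ^ (cardFactors m.natAbs)

lemma pos_of_mul_pos_of_nonneg_left' {a b : ℤ} (h : 0 < a * b) (ha : 0 ≤ a) : 0 < b := by
  by_contra hb
  have : a * b ≤ 0 := mul_nonpos_of_nonneg_of_nonpos ha (not_lt.mp hb)
  linarith

lemma pos_of_mul_pos_of_nonneg_right' {a b : ℤ} (h : 0 < a * b) (hb : 0 ≤ b) : 0 < a := by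
  by_contra ha
  have : a * b ≤ 0 := mul_nonpos_of_nonpos_of_nonneg (not_lt.mp ha) hb
  linarith

lemma lam_mul {a b : ℤ} (ha : a ≠ 0) (hb : b ≠ 0) : lam (a * b) = lam a * lam b := by
  unfold lam
  rw [Int.natAbs_mul, cardFactors_mul (Int.natAbs_ne_zero.mpr ha) (Int.natAbs_ne_zero.mpr hb), pow_add]

lemma lam_sq_self (a : ℤ) : lam a * lam a = 1 := by
  unfold lam
  rw [← pow_add, ← two_mul, pow_mul]
  simp

lemma lam_eq_or (a : ℤ) : lam a = 1 ∨ lam a = -1 := by
  unfold lam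
  exact neg_one_pow_eq_or ℤ _

lemma lam_sq {a : ℤ} (ha : a ≠ 0) : lam (a ^ 2) = 1 := by
  rw [pow_two, lam_mul ha ha, lam_sq_self]

lemma lam_one : lam 1 = 1 := by
  unfold lam
  simp

lemma lam_prime {p : ℕ} (hp : p.Prime) : lam (p : ℤ) = -1 := by
  unfold lam
  rw [Int.natAbs_natCast, cardFactors_apply_prime hp]
  simp

/-- downward step -/
lemma all_of_eventually {d N : ℤ} (h : ∀ n : ℤ, N ≤ n → 0 < n ^ 2 + d → lam (n ^ 2 + d) = 1) :
    ∀ n : ℤ, 0 ≤ n → 0 < n ^ 2 + d → lam (n ^ 2 + d) = 1 := by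
  have key : ∀ m : ℕ, ∀ n : ℤ, 0 ≤ n → N ≤ n + m → 0 < n ^ 2 + d → lam (n ^ 2 + d) = 1 := by
    intro m
    induction m with
    | zero =>
      intro n _ hN hpos
      exact h n (by simpa using hN) hpos
    | succ m ih =>
      intro n hn hN hpos
      have h1 : 0 < (n + 1) ^ 2 + d := by nlinarith
      have hA : lam ((n + 1) ^ 2 + d) = 1 := ih (n + 1) (by omega) (by push_cast at hN; linarith) h1
      have hid : (n ^ 2 + d) * ((n + 1) ^ 2 + d) = (n ^ 2 + n + d) ^ 2 + d := by ring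
      have h2 : 0 < (n ^ 2 + n + d) ^ 2 + d := by rw [← hid]; positivity
      have hB : lam ((n ^ 2 + n + d) ^ 2 + d) = 1 := by
        apply ih (n ^ 2 + n + d) (by linarith) _ h2
        push_cast at hN
        linarith
      rw [← hid, lam_mul (ne_of_gt hpos) (ne_of_gt h1), hA, mul_one] at hB
      exact hB
  intro n hn hpos
  exact key (N - n).toNat n hn (by have := Int.self_le_toNat (N - n); linarith) hpos

/-- all properly represented positive values -/
lemma all_coprime {d : ℤ} (h : ∀ n : ℤ, 0 ≤ n → 0 < n ^ 2 + d → lam (n ^ 2 + d) = 1) :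
    ∀ b : ℕ, ∀ a : ℤ, 0 ≤ a → IsCoprime a (b : ℤ) → 0 < a ^ 2 + d * (b : ℤ) ^ 2 →
      lam (a ^ 2 + d * (b : ℤ) ^ 2) = 1 := by
  intro b
  induction b using Nat.strong_induction_on with
  | _ b ih =>
    intro a ha hcop hpos
    rcases Nat.eq_zero_or_pos b with hb | hb
    · subst hb
      have : IsUnit a := by simpa [isCoprime_zero_right] using hcop
      rcases Int.isUnit_iff.mp this with h1 | h1 <;> subst h1 <;> simp [lam_one]
    · -- choose y with a*y ≡ -1 mod b
      have hbz : (0 : ℤ) < b := by exact_mod_cast hb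
      obtain ⟨u, v, huv⟩ := hcop
      -- u * a + v * b = 1
      set y : ℤ := (-u) % b with hy
      have hy0 : 0 ≤ y := Int.emod_nonneg _ (ne_of_gt hbz)
      have hyb : y < b := Int.emod_lt_of_pos _ hbz
      have hdiv : (b : ℤ) ∣ a * y + 1 := by
        have : y = -u - b * ((-u) / b) := by
          have := Int.emod_add_mul_ediv (-u) (b : ℤ)
          linarith
        rw [this]
        refine ⟨v - a * ((-u) / b), ?_⟩
        linear_combination (-1 : ℤ) * huv
      obtain ⟨x, hx⟩ := hdiv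
      -- a*y+1 = b*x
      have hxpos : 0 < x := by
        have h1 : 0 < (b : ℤ) * x := by rw [← hx]; positivity
        exact pos_of_mul_pos_of_nonneg_left' h1 hbz.le
      have hdet : x * b - a * y = 1 := by linarith [mul_comm x (b : ℤ)]
      have hcop' : IsCoprime x y := ⟨b, -a, by linarith [mul_comm x (b : ℤ)]⟩
      have hid : (a ^ 2 + d * (b : ℤ) ^ 2) * (x ^ 2 + d * y ^ 2) = (a * x + d * b * y) ^ 2 + d := by
        have h2 : (a ^ 2 + d * (b : ℤ) ^ 2) * (x ^ 2 + d * y ^ 2)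
            = (a * x + d * b * y) ^ 2 + d * (x * b - a * y) ^ 2 := by ring
        rw [h2, hdet]; ring
      have hpos' : 0 < x ^ 2 + d * y ^ 2 := by
        have h3 : (x ^ 2 + d * y ^ 2) * (b : ℤ) ^ 2
            = y ^ 2 * (a ^ 2 + d * (b : ℤ) ^ 2) + (2 * a * y + 1) := by
          have : x * b = a * y + 1 := by linarith
          calc (x ^ 2 + d * y ^ 2) * (b : ℤ) ^ 2 = (x * b) ^ 2 + d * y ^ 2 * (b : ℤ) ^ 2 := by ring
            _ = _ := by rw [this]; ring
        have h4 : 0 < (x ^ 2 + d * y ^ 2) * (b : ℤ) ^ 2 := by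
          rw [h3]; positivity
        exact pos_of_mul_pos_of_nonneg_right' h4 (by positivity)
      have hIH : lam (x ^ 2 + d * y ^ 2) = 1 := by
        have := ih y.toNat (by omega) x hxpos.le
          (by rw [Int.toNat_of_nonneg hy0]; exact hcop')
          (by rw [Int.toNat_of_nonneg hy0]; exact hpos')
        rw [Int.toNat_of_nonneg hy0] at this
        exact this
      have hN : lam ((a * x + d * b * y) ^ 2 + d) = 1 := by
        have := h |a * x + d * b * y| (abs_nonneg _) (by rw [sq_abs, ← hid]; positivity)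
        rwa [sq_abs] at this
      rw [← hid, lam_mul (ne_of_gt hpos) (ne_of_gt hpos'), hIH, mul_one] at hN
      exact hN

/-- all positive values -/
lemma all_values {d : ℤ} (h : ∀ n : ℤ, 0 ≤ n → 0 < n ^ 2 + d → lam (n ^ 2 + d) = 1)
    (a b : ℤ) (hpos : 0 < a ^ 2 + d * b ^ 2) : lam (a ^ 2 + d * b ^ 2) = 1 := by
  have hne : a ≠ 0 ∨ b ≠ 0 := by
    by_contra hc
    push Not at hc
    rw [hc.1, hc.2] at hpos
    simp at hpos
  have hg : Int.gcd a b ≠ 0 := by
    intro h0
    rw [Int.gcd_eq_zero_iff] at h0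
    rcases hne with h1 | h1
    · exact h1 h0.1
    · exact h1 h0.2
  obtain ⟨a', b', hcop, ha, hb⟩ : ∃ a' b' : ℤ, IsCoprime a' b' ∧ a = a' * (Int.gcd a b : ℤ) ∧
      b = b' * (Int.gcd a b : ℤ) := by
    obtain ⟨a', b', h1, h2, h3⟩ := Int.exists_gcd_one (m := a) (n := b) (Nat.pos_of_ne_zero hg)
    exact ⟨a', b', Int.isCoprime_iff_gcd_eq_one.mpr h1, h2, h3⟩
  set g : ℤ := (Int.gcd a b : ℤ) with hgdef
  have hg' : g ≠ 0 := by rw [hgdef]; exact_mod_cast hg
  have hval : a ^ 2 + d * b ^ 2 = g ^ 2 * (|a'| ^ 2 + d * (b'.natAbs : ℤ) ^ 2) := by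
    rw [sq_abs, Int.natCast_natAbs, sq_abs]
    conv_lhs => rw [ha, hb]
    ring
  have hpos' : 0 < |a'| ^ 2 + d * (b'.natAbs : ℤ) ^ 2 := by
    rw [hval] at hpos
    exact pos_of_mul_pos_of_nonneg_left' hpos (by positivity)
  have hc2 : IsCoprime |a'| (b'.natAbs : ℤ) := by
    rw [Int.natCast_natAbs]
    exact (IsCoprime.abs_abs_iff (x := a') (y := b')).mpr hcop
  rw [hval, lam_mul (pow_ne_zero 2 hg') (ne_of_gt hpos'), lam_sq hg', one_mul]
  exact all_coprime h b'.natAbs |a'| (abs_nonneg _) hc2 hpos'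

end Pool.Agent.H411R3.Liou
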