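import Mathlib

set_option autoImplicit false

namespace Pool.Agent.H411R3.SqfPairs

open Finset

/-- A set of naturals below `T`, pairwise congruent mod `m`, has at most `T/m+1` elements. -/
lemma card_congr_le {S : Finset ℕ} {T m : ℕ} (hS : ∀ t ∈ S, t < T)
    (h : ∀ t ∈ S, ∀ t' ∈ S, t ≡ t' [MOD m]) : S.card ≤ T / m + 1 := by
  have : S.card ≤ (range (T / m + 1)).card := by
    apply card_le_card_of_injOn (fun t => t / m)
    · intro t ht
      simp only [coe_range, Set.mem_Iio]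
      have := Nat.div_le_div_right (c := m) (hS t ht).le
      omega
    · intro t ht t' ht' heq
      have h1 : t % m = t' % m := h t ht t' ht'
      have h2 : t / m = t' / m := heq
      rw [← Nat.div_add_mod t m, ← Nat.div_add_mod t' m, h1, h2]
  simpa using this

/-- at most `2 (T/p^2+1)` values of `t < T` have `p^2 ∣ (a t + b)^2+1`. -/
lemma card_sq_dvd {p a : ℕ} (hp : p.Prime) (hp2 : p ≠ 2) (hpa : Nat.Coprime p a) (b T : ℕ) :
    ((range T).filter (fun t => p ^ 2 ∣ (a * t + b) ^ 2 + 1)).card ≤ 2 * (T / p ^ 2 + 1) := by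
  set S := (range T).filter (fun t => p ^ 2 ∣ (a * t + b) ^ 2 + 1) with hS
  have hmemS : ∀ t ∈ S, t < T ∧ p ^ 2 ∣ (a * t + b) ^ 2 + 1 := by
    intro t ht
    rw [hS, mem_filter, mem_range] at ht
    exact ht
  rcases S.eq_empty_or_nonempty with he | ⟨t0, ht0⟩
  · rw [he]; simp
  · have hppos : 0 < p ^ 2 := pow_pos hp.pos 2
    have hcopz : IsCoprime ((p : ℤ) ^ 2) (a : ℤ) := by
      apply IsCoprime.pow_left
      exact Nat.isCoprime_iff_coprime.mpr hpa
    -- key dichotomy
    have key : ∀ t ∈ S, ((p : ℤ) ^ 2 ∣ (t : ℤ) - t0) ∨ ((p : ℤ) ^ 2 ∣ (a : ℤ) * (t + t0) + 2 * b) := by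
      intro t ht
      have h1 : ((p : ℤ) ^ 2) ∣ ((a : ℤ) * t + b) ^ 2 + 1 := by
        have := (hmemS t ht).2
        exact_mod_cast Int.natCast_dvd_natCast.mpr this
      have h2 : ((p : ℤ) ^ 2) ∣ ((a : ℤ) * t0 + b) ^ 2 + 1 := by
        have := (hmemS t0 ht0).2
        exact_mod_cast Int.natCast_dvd_natCast.mpr this
      have h3 : ((p : ℤ) ^ 2) ∣ ((a : ℤ) * (t - t0)) * ((a : ℤ) * (t + t0) + 2 * b) := by
        have := dvd_sub h1 h2
        have e : ((a : ℤ) * t + b) ^ 2 + 1 - (((a : ℤ) * t0 + b) ^ 2 + 1)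
          = ((a : ℤ) * (t - t0)) * ((a : ℤ) * (t + t0) + 2 * b) := by ring
        rwa [e] at this
      have hpz : Prime (p : ℤ) := Nat.prime_iff_prime_int.mp hp
      by_cases hc : (p : ℤ) ∣ (a : ℤ) * (t + t0) + 2 * b
      · by_cases hc2 : (p : ℤ) ∣ (a : ℤ) * (t - t0)
        · exfalso
          -- p ∣ 2 (a t0 + b)
          have h4 : (p : ℤ) ∣ 2 * ((a : ℤ) * t + b) := by
            have := dvd_add hc hc2
            have e : (a : ℤ) * (t + t0) + 2 * b + (a : ℤ) * (t - t0) = 2 * ((a : ℤ) * t + b) := by ring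
            rwa [e] at this
          rcases hpz.dvd_or_dvd h4 with h5 | h5
          · have h6 : p ∣ 2 := by exact_mod_cast h5
            rcases (Nat.dvd_prime Nat.prime_two).mp h6 with h7 | h7
            · exact hp.one_lt.ne' h7
            · exact hp2 h7
          · have h6 : (p : ℤ) ∣ ((a : ℤ) * t + b) ^ 2 + 1 := (dvd_pow_self _ (by norm_num)).trans h1
            have h7 : (p : ℤ) ∣ ((a : ℤ) * t + b) ^ 2 := dvd_pow h5 (by norm_num)
            have h8 : (p : ℤ) ∣ 1 := (dvd_add_right h7).mp h6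
            exact hpz.not_isUnit (isUnit_of_dvd_one h8)
        · right
          have hcop : IsCoprime ((p : ℤ) ^ 2) ((a : ℤ) * (t - t0)) := by
            apply IsCoprime.pow_left
            exact (Prime.coprime_iff_not_dvd hpz).mpr hc2
          exact hcop.dvd_of_dvd_mul_left h3
      · left
        have hcop : IsCoprime ((p : ℤ) ^ 2) ((a : ℤ) * (t + t0) + 2 * b) := by
          apply IsCoprime.pow_left
          exact (Prime.coprime_iff_not_dvd hpz).mpr hc
        have h4 : ((p : ℤ) ^ 2) ∣ (a : ℤ) * (t - t0) := hcop.dvd_of_dvd_mul_right h3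
        exact hcopz.dvd_of_dvd_mul_left h4
    classical
    set S1 : Finset ℕ := S.filter (fun t : ℕ => ((p : ℤ) ^ 2 ∣ (t : ℤ) - t0)) with hS1
    set S2 : Finset ℕ := S.filter (fun t : ℕ => ¬ ((p : ℤ) ^ 2 ∣ (t : ℤ) - t0)) with hS2
    have hcard : S1.card + S2.card = S.card := by
      exact card_filter_add_card_filter_not _
    have hconv : ∀ t t' : ℕ, ((p : ℤ) ^ 2 ∣ (t : ℤ) - t') → t ≡ t' [MOD p ^ 2] := by
      intro t t' h
      have h' : (((p ^ 2 : ℕ)) : ℤ) ∣ (t : ℤ) - t' := by exact_mod_cast h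
      exact ((Nat.modEq_iff_dvd).mpr (by exact_mod_cast h')).symm
    have c1 : S1.card ≤ T / p ^ 2 + 1 := by
      apply card_congr_le
      · intro t ht
        exact (hmemS t (mem_filter.mp ht).1).1
      · intro t ht t' ht'
        have h1 := (mem_filter.mp ht).2
        have h2 := (mem_filter.mp ht').2
        apply hconv
        have := dvd_sub h1 h2
        have e : (t : ℤ) - t0 - (t' - t0) = t - t' := by ring
        rwa [e] at this
    have c2 : S2.card ≤ T / p ^ 2 + 1 := by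
      apply card_congr_le
      · intro t ht
        exact (hmemS t (mem_filter.mp ht).1).1
      · intro t ht t' ht'
        have h1 := (key t (mem_filter.mp ht).1).resolve_left (mem_filter.mp ht).2
        have h2 := (key t' (mem_filter.mp ht').1).resolve_left (mem_filter.mp ht').2
        apply hconv
        have := dvd_sub h1 h2
        have e : (a : ℤ) * (t + t0) + 2 * b - ((a : ℤ) * (t' + t0) + 2 * b) = (a : ℤ) * (t - t') := by ring
        rw [e] at this
        exact hcopz.dvd_of_dvd_mul_left this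
    omega

lemma sum_inv_sq_le (M : ℕ) : ∑ m ∈ Ico 13 M, (1 : ℝ) / (m : ℝ) ^ 2 ≤ 1 / 12 := by
  have h : ∀ N : ℕ, ∑ m ∈ Ico 13 (13 + N), (1 : ℝ) / (m : ℝ) ^ 2 ≤ 1 / 12 - 1 / (12 + N : ℝ) := by
    intro N
    induction N with
    | zero => simp
    | succ N ih =>
      rw [← add_assoc, sum_Ico_succ_top (by omega)]
      have hN : (0 : ℝ) ≤ N := Nat.cast_nonneg N
      have h1 : (1 : ℝ) / ((13 + N : ℕ) : ℝ) ^ 2 ≤ 1 / (12 + N) - 1 / (12 + ((N + 1 : ℕ) : ℝ)) := by
        push_cast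
        rw [div_sub_div _ _ (by positivity) (by positivity), div_le_div_iff₀ (by positivity) (by positivity)]
        nlinarith
      linarith
  rcases le_or_gt 13 M with hM | hM
  · obtain ⟨N, rfl⟩ := Nat.exists_eq_add_of_le hM
    have h1 := h N
    have h2 : (0 : ℝ) ≤ 1 / (12 + N : ℝ) := by positivity
    linarith
  · rw [Ico_eq_empty (by omega)]
    simp

/-- no small prime square divides the values at `5t`, `5t+1`. -/
lemma prime_ge {p x : ℕ} (hp : p.Prime) (hx : x % 5 = 0 ∨ x % 5 = 1) (h : p ^ 2 ∣ x ^ 2 + 1) : 13 ≤ p := by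
  have hpd : p ∣ x ^ 2 + 1 := (dvd_pow_self p (by norm_num)).trans h
  by_contra hlt
  push Not at hlt
  have hcases : p = 2 ∨ p = 3 ∨ p = 5 ∨ p = 7 ∨ p = 11 := by
    have : 2 ≤ p := hp.two_le
    interval_cases p <;> first | (exfalso; revert hp; decide) | simp
  rcases hcases with rfl | rfl | rfl | rfl | rfl
  · have h4 : (x ^ 2 + 1) % 4 = 0 := Nat.mod_eq_zero_of_dvd h
    have : x % 4 = 0 ∨ x % 4 = 1 ∨ x % 4 = 2 ∨ x % 4 = 3 := by omega
    rcases this with e | e | e | e <;> simp [Nat.add_mod, Nat.pow_mod, e] at h4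
  · have h4 : (x ^ 2 + 1) % 3 = 0 := Nat.mod_eq_zero_of_dvd hpd
    have : x % 3 = 0 ∨ x % 3 = 1 ∨ x % 3 = 2 := by omega
    rcases this with e | e | e <;> simp [Nat.add_mod, Nat.pow_mod, e] at h4
  · have h4 : (x ^ 2 + 1) % 5 = 0 := Nat.mod_eq_zero_of_dvd hpd
    rcases hx with e | e <;> simp [Nat.add_mod, Nat.pow_mod, e] at h4
  · have h4 : (x ^ 2 + 1) % 7 = 0 := Nat.mod_eq_zero_of_dvd hpd
    have : x % 7 = 0 ∨ x % 7 = 1 ∨ x % 7 = 2 ∨ x % 7 = 3 ∨ x % 7 = 4 ∨ x % 7 = 5 ∨ x % 7 = 6 := by omega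
    rcases this with e | e | e | e | e | e | e <;> simp [Nat.add_mod, Nat.pow_mod, e] at h4
  · have h4 : (x ^ 2 + 1) % 11 = 0 := Nat.mod_eq_zero_of_dvd hpd
    have : x % 11 = 0 ∨ x % 11 = 1 ∨ x % 11 = 2 ∨ x % 11 = 3 ∨ x % 11 = 4 ∨ x % 11 = 5 ∨ x % 11 = 6 ∨
      x % 11 = 7 ∨ x % 11 = 8 ∨ x % 11 = 9 ∨ x % 11 = 10 := by omega
    rcases this with e | e | e | e | e | e | e | e | e | e | e <;>
      simp [Nat.add_mod, Nat.pow_mod, e] at h4

/-- good parameters -/
def Good (t : ℕ) : Prop := Squarefree ((5 * t) ^ 2 + 1) ∧ Squarefree ((5 * t + 1) ^ 2 + 1)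

lemma exists_prime_sq {n : ℕ} (h : ¬ Squarefree n) : ∃ p, p.Prime ∧ p ^ 2 ∣ n := by
  rw [Nat.squarefree_iff_prime_squarefree] at h
  push Not at h
  obtain ⟨p, hp, hd⟩ := h
  exact ⟨p, hp, by rw [pow_two]; exact hd⟩

open Classical in
lemma bad_card (T : ℕ) : (((range T).filter (fun t => ¬ Good t)).card : ℝ) ≤
    T / 3 + 4 * (Nat.primeCounting (5 * T + 2) : ℝ) := by
  set Pr := (range (5 * T + 3)).filter (fun p => p.Prime ∧ 13 ≤ p) with hPr
  have hsub : (range T).filter (fun t => ¬ Good t) ⊆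
      Pr.biUnion (fun p => (range T).filter (fun t => p ^ 2 ∣ (5 * t + 0) ^ 2 + 1) ∪
        (range T).filter (fun t => p ^ 2 ∣ (5 * t + 1) ^ 2 + 1)) := by
    intro t ht
    rw [mem_filter, mem_range] at ht
    obtain ⟨htT, hg⟩ := ht
    rw [mem_biUnion]
    unfold Good at hg
    rw [not_and_or] at hg
    rcases hg with hg | hg
    · obtain ⟨p, hp, hd⟩ := exists_prime_sq hg
      have h13 : 13 ≤ p := prime_ge hp (by left; omega) hd
      have hle : p ≤ 5 * t + 1 := by
        by_contra hc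
        push Not at hc
        have h1 : p ^ 2 ≤ (5 * t) ^ 2 + 1 := Nat.le_of_dvd (by positivity) hd
        nlinarith
      refine ⟨p, ?_, ?_⟩
      · rw [hPr, mem_filter, mem_range]
        exact ⟨by omega, hp, h13⟩
      · rw [mem_union, mem_filter, mem_range]
        left
        exact ⟨htT, by simpa using hd⟩
    · obtain ⟨p, hp, hd⟩ := exists_prime_sq hg
      have h13 : 13 ≤ p := prime_ge hp (by right; omega) hd
      have hle : p ≤ 5 * t + 2 := by
        by_contra hc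
        push Not at hc
        have h1 : p ^ 2 ≤ (5 * t + 1) ^ 2 + 1 := Nat.le_of_dvd (by positivity) hd
        nlinarith
      refine ⟨p, ?_, ?_⟩
      · rw [hPr, mem_filter, mem_range]
        exact ⟨by omega, hp, h13⟩
      · rw [mem_union, mem_filter, mem_filter, mem_range]
        right
        exact ⟨htT, hd⟩
  have hcard : ((range T).filter (fun t => ¬ Good t)).card ≤ ∑ p ∈ Pr, 4 * (T / p ^ 2 + 1) := by
    refine (card_le_card hsub).trans (card_biUnion_le.trans ?_)
    apply sum_le_sum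
    intro p hp
    rw [hPr, mem_filter] at hp
    obtain ⟨_, hpp, h13⟩ := hp
    have hcop : Nat.Coprime p 5 := by
      rw [Nat.coprime_primes hpp (by norm_num)]
      omega
    have c1 := card_sq_dvd hpp (by omega) hcop 0 T
    have c2 := card_sq_dvd hpp (by omega) hcop 1 T
    refine (card_union_le _ _).trans ?_
    omega
  have hreal : (((range T).filter (fun t => ¬ Good t)).card : ℝ) ≤ ∑ p ∈ Pr, 4 * ((T : ℝ) * (1 / (p : ℝ) ^ 2) + 1) := by
    have h1 : (((range T).filter (fun t => ¬ Good t)).card : ℝ) ≤ ((∑ p ∈ Pr, 4 * (T / p ^ 2 + 1) : ℕ) : ℝ) := by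
      exact_mod_cast hcard
    refine h1.trans ?_
    push_cast
    apply sum_le_sum
    intro p _
    have h2 : (((T / p ^ 2 : ℕ)) : ℝ) ≤ (T : ℝ) / ((p ^ 2 : ℕ) : ℝ) := Nat.cast_div_le
    push_cast at h2
    have h3 : (T : ℝ) / (p : ℝ) ^ 2 = (T : ℝ) * (1 / (p : ℝ) ^ 2) := by ring
    rw [← h3]
    linarith
  refine hreal.trans ?_
  rw [← mul_sum, sum_add_distrib, ← mul_sum]
  have hs : ∑ p ∈ Pr, (1 : ℝ) / (p : ℝ) ^ 2 ≤ 1 / 12 := by
    refine le_trans ?_ (sum_inv_sq_le (5 * T + 3))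
    apply sum_le_sum_of_subset_of_nonneg
    · intro p hp
      rw [hPr, mem_filter, mem_range] at hp
      rw [mem_Ico]
      exact ⟨hp.2.2, hp.1⟩
    · intros; positivity
  have hc : (Pr.card : ℝ) ≤ (Nat.primeCounting (5 * T + 2) : ℝ) := by
    have : Pr.card ≤ Nat.primeCounting (5 * T + 2) := by
      rw [← Nat.primesLE_card_eq_primeCounting]
      apply card_le_card
      intro p hp
      rw [hPr, mem_filter, mem_range] at hp
      rw [Nat.mem_primesLE]
      exact ⟨by omega, hp.2.1⟩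
    exact_mod_cast this
  have hsum1 : ∑ p ∈ Pr, (1 : ℝ) = Pr.card := by simp
  rw [hsum1]
  have hT : (0 : ℝ) ≤ T := Nat.cast_nonneg T
  nlinarith

end Pool.Agent.H411R3.SqfPairs
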